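import Pool.Agent.Lib.MP_939ffc_anD.Defs
import Pool.Agent.Lib.MP_deb14e_anM.Mono

open MeasureTheory Set Metric Filter Topology
open scoped ENNReal NNReal Pointwise
open Pool.Agent.Lib.MP_deb14e_an Pool.Agent.MPdeb14eM

namespace BM939

private theorem cent_frontier {m : ℕ} {K : Set (E (m + 1))} (hneg : ∀ x ∈ K, -x ∈ K) :
    (IsometryEquiv.neg (E (m + 1))) ⁻¹' (frontier K) = frontier K := by
  have h1 : (IsometryEquiv.neg (E (m + 1))).toHomeomorph ⁻¹' (frontier K) =
      frontier ((IsometryEquiv.neg (E (m + 1))).toHomeomorph ⁻¹' K) :=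
    Homeomorph.preimage_frontier _ _
  have h2 : (IsometryEquiv.neg (E (m + 1))).toHomeomorph ⁻¹' K = K := by
    ext x
    show -x ∈ K ↔ x ∈ K
    exact ⟨fun h => by simpa using hneg _ h, fun h => hneg _ h⟩
  rw [h2] at h1
  exact h1

private theorem cent_inner {m : ℕ} {K : Set (E (m + 1))} (hneg : ∀ x ∈ K, -x ∈ K)
    (x₀ : E (m + 1)) (d : ℝ) :
    ∫ x in frontier K, inner ℝ x x₀ ∂(Measure.hausdorffMeasure d) = 0 := by
  have h1 : MeasurePreserving (IsometryEquiv.neg (E (m + 1))) (Measure.hausdorffMeasure d)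
      (Measure.hausdorffMeasure d) := IsometryEquiv.measurePreserving_hausdorffMeasure _ d
  have h2 := h1.setIntegral_preimage_emb
    (IsometryEquiv.neg (E (m + 1))).toHomeomorph.measurableEmbedding
    (fun x => inner ℝ x x₀) (frontier K)
  rw [cent_frontier hneg] at h2
  have h4 : ∫ x in frontier K, inner ℝ ((IsometryEquiv.neg (E (m + 1))) x) x₀
      ∂(Measure.hausdorffMeasure d) =
      -∫ x in frontier K, inner ℝ x x₀ ∂(Measure.hausdorffMeasure d) := by
    rw [← integral_neg]
    refine integral_congr_ae (Eventually.of_forall fun x => ?_)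
    show inner ℝ (-x) x₀ = -inner ℝ x x₀
    exact inner_neg_left _ _
  rw [h4] at h2
  linarith

/-- PROOF: as `momentum_ball_ge` (Ball1.lean): the isometry `x ↦ -x` preserves `μH[m]` and the frontier of `K`, so the
integral of `⟨x, x₀⟩` is zero and the integral of `‖x - x₀‖ ^ 2 = ‖x‖ ^ 2 - 2 ⟨x, x₀⟩ + ‖x₀‖ ^ 2` is at least that of
`‖x‖ ^ 2`. -/
theorem momentum_zero_le {m : ℕ} {K : Set (E (m + 1))} (hK : ConvexDomain K) (hneg : ∀ x ∈ K, -x ∈ K)
    (x₀ : E (m + 1)) : momentum K 0 ≤ momentum K x₀ := by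
  have hfin := frontier_lt_top hK
  rw [momentum, momentum]
  have hm : (((m + 1 : ℕ) : ℝ) - 1) = m := by
    push_cast
    ring
  rw [hm]
  refine mul_le_mul_of_nonneg_left ?_ (hausdorffConst_pos (Nat.cast_nonneg m)).le
  have hms : MeasurableSet (frontier K) := isClosed_frontier.measurableSet
  have hcpt : IsCompact (frontier K) :=
    hK.2.1.isCompact_closure.of_isClosed_subset isClosed_frontier frontier_subset_closure
  have hint : ∀ f : E (m + 1) → ℝ, Continuous f → IntegrableOn f (frontier K)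
      (Measure.hausdorffMeasure (m : ℝ)) := by
    intro f hf
    obtain ⟨M, hM⟩ := hcpt.exists_bound_of_continuousOn hf.continuousOn
    refine IntegrableOn.of_bound hfin hf.aestronglyMeasurable M ?_
    exact (ae_restrict_iff' hms).2 (Eventually.of_forall hM)
  have h1 : ∫ x in frontier K, (‖x - 0‖ ^ 2 - 2 * inner ℝ x x₀)
      ∂(Measure.hausdorffMeasure (m : ℝ)) =
      ∫ x in frontier K, ‖x - 0‖ ^ 2 ∂(Measure.hausdorffMeasure (m : ℝ)) := by
    rw [integral_sub (hint _ (by fun_prop)) (hint _ (by fun_prop)), integral_const_mul,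
      cent_inner hneg, mul_zero, sub_zero]
  rw [← h1]
  refine setIntegral_mono_on (hint _ (by fun_prop)) (hint _ (by fun_prop)) hms fun x hx => ?_
  have h3 := norm_sub_sq_real x x₀
  rw [sub_zero]
  nlinarith [sq_nonneg ‖x₀‖]

end BM939
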