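import Pool.Agent.Lib.MP_939ffc_anD.Defs

/-!
# MP_939ffc_an: the ball and the cube as symmetric bodies
-/

open MeasureTheory Set Metric Filter Topology
open scoped ENNReal NNReal Pointwise
open Pool.Agent.Lib.MP_deb14e_an Pool.Agent.MPdeb14eM

namespace BM939

/-- The open cube. -/
def cube (n : ℕ) : Set (E n) := {x | ∀ i, |x i| < 1}

theorem sp_norm {n : ℕ} (σ : Equiv.Perm (Fin n)) {e : Fin n → ℝ} (he : ∀ i, e i = 1 ∨ e i = -1)
    (x : E n) : ‖sp σ e x‖ = ‖x‖ := by
  rw [EuclideanSpace.norm_eq, EuclideanSpace.norm_eq]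
  congr 1
  have h1 : ∀ i, ‖(sp σ e x) i‖ ^ 2 = ‖x (σ i)‖ ^ 2 := by
    intro i
    show ‖e i * x (σ i)‖ ^ 2 = _
    rcases he i with h | h <;> rw [h] <;> simp
  simp only [h1]
  exact Equiv.sum_comp σ fun i => ‖x i‖ ^ 2

theorem sym_ball (n : ℕ) : SignedPermInvariant (ball (0 : E n) 1) := by
  intro σ e he x hx
  rw [mem_ball_zero_iff] at hx ⊢
  rw [sp_norm σ he]
  exact hx

theorem sym_cube (n : ℕ) : SignedPermInvariant (cube n) := by
  intro σ e he x hx i
  show |e i * x (σ i)| < 1
  rcases he i with h | h <;> rw [h] <;> simpa using hx (σ i)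

theorem convexDomain_ball1 (n : ℕ) : ConvexDomain (ball (0 : E n) 1) :=
  ⟨⟨0, mem_ball_self one_pos⟩, isBounded_ball, isOpen_ball, convex_ball _ _⟩

/-- PROOF: intersection of the open convex sets `{x | |x i| < 1}`; bounded since `‖x‖ ^ 2 = ∑ (x i) ^ 2 ≤ n`. -/
theorem convexDomain_cube (n : ℕ) : ConvexDomain (cube n) := by
  refine ⟨⟨0, fun i => by simp⟩, ?_, ?_, ?_⟩
  · refine (isBounded_iff_forall_norm_le).mpr ⟨√(n : ℝ), fun x hx => ?_⟩
    rw [EuclideanSpace.norm_eq]
    apply Real.sqrt_le_sqrt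
    have h1 : ∑ i, ‖x i‖ ^ 2 ≤ ∑ _i : Fin n, (1 : ℝ) := by
      refine Finset.sum_le_sum fun i _ => ?_
      have h2 : |x i| < 1 := hx i
      have h3 : ‖x i‖ = |x i| := Real.norm_eq_abs _
      rw [h3]
      have h4 : 0 ≤ |x i| := abs_nonneg _
      nlinarith
    have h5 : ∑ _i : Fin n, (1 : ℝ) = (n : ℝ) := by simp
    linarith
  · have h1 : cube n = ⋂ i, {x : E n | |x i| < 1} := by
      ext x
      simp [cube]
    rw [h1]
    refine isOpen_iInter_of_finite fun i => ?_
    refine isOpen_lt ?_ continuous_const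
    fun_prop
  · intro x hx y hy a b ha hb hab i
    show |a * x i + b * y i| < 1
    have h1 : |x i| < 1 := hx i
    have h2 : |y i| < 1 := hy i
    rw [abs_lt] at h1 h2 ⊢
    rcases ha.eq_or_lt with h | h
    · have hb1 : b = 1 := by linarith
      rw [← h, hb1]
      constructor <;> linarith [h2.1, h2.2]
    · constructor <;> nlinarith [mul_pos h (sub_pos.mpr h1.2), mul_pos h (sub_pos.mpr h1.1),
        mul_nonneg hb (sub_pos.mpr h2.2).le, mul_nonneg hb (sub_pos.mpr h2.1).le]

/-- PROOF: `|x i| ≤ ‖x‖` gives the ball; a frontier point has `|x i| ≤ 1` for all `i` (closure) and `|x i| = 1` for some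
`i` (it is not in the open cube); take `u = ± e_i`. -/
theorem circumscribed_cube (n : ℕ) : Circumscribed (cube n) 0 1 := by
  constructor
  · intro x hx i
    rw [mem_ball_zero_iff] at hx
    have h1 : ‖x i‖ ≤ ‖x‖ := PiLp.norm_apply_le x i
    rw [Real.norm_eq_abs] at h1
    show |x i| < 1
    linarith
  · intro x hx
    rw [(convexDomain_cube n).2.2.1.frontier_eq] at hx
    have h1 : ∀ i, |x i| ≤ 1 := by
      have h2 : closure (cube n) ⊆ {x : E n | ∀ i, |x i| ≤ 1} := by
        refine closure_minimal (fun y hy i => (hy i).le) ?_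
        have h3 : {x : E n | ∀ i, |x i| ≤ 1} = ⋂ i, {x : E n | |x i| ≤ 1} := by
          ext y
          simp
        rw [h3]
        refine isClosed_iInter fun i => ?_
        refine isClosed_le ?_ continuous_const
        fun_prop
      exact h2 hx.1
    have h4 : ∃ i, 1 ≤ |x i| := by
      by_contra hcon
      push Not at hcon
      exact hx.2 hcon
    obtain ⟨i, hi⟩ := h4
    have h5 : |x i| = 1 := le_antisymm (h1 i) hi
    rcases (abs_eq (by norm_num : (0 : ℝ) ≤ 1)).mp h5 with h6 | h6
    · refine ⟨EuclideanSpace.single i 1, by simp, ?_, fun y hy => ?_⟩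
      · rw [sub_zero, EuclideanSpace.inner_single_left]
        simp [h6]
      · rw [sub_zero, EuclideanSpace.inner_single_left]
        have h7 : |y i| < 1 := hy i
        have h8 := (abs_lt.mp h7).2
        simp only [map_one, one_mul]
        exact h8.le
    · refine ⟨EuclideanSpace.single i (-1), by simp, ?_, fun y hy => ?_⟩
      · rw [sub_zero, EuclideanSpace.inner_single_left]
        simp [h6]
      · rw [sub_zero, EuclideanSpace.inner_single_left]
        have h7 : |y i| < 1 := hy i
        have h8 := (abs_lt.mp h7).1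
        simp only [map_neg, map_one, neg_mul, one_mul]
        linarith

end BM939
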