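import Pool.Agent.Lib.MP_939ffc_anD.Cube

/-!
# MP_939ffc_an: ellipsoids and boxes as diagonal images
-/

open MeasureTheory Set Metric Filter Topology
open scoped ENNReal NNReal Pointwise
open Pool.Agent.Lib.MP_deb14e_an Pool.Agent.MPdeb14eM

namespace BM939

private theorem cube2_normsq {n : ℕ} (a : E n) : ‖a‖ ^ 2 = ∑ i, a i ^ 2 := by
  rw [EuclideanSpace.norm_sq_eq]
  refine Finset.sum_congr rfl fun i _ => ?_
  rw [Real.norm_eq_abs, sq_abs]

private theorem cube2_lt {n : ℕ} (a : E n) : ‖a‖ < 1 ↔ ∑ i, a i ^ 2 < 1 := by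
  rw [← cube2_normsq, sq_lt_one_iff₀ (norm_nonneg a)]

private theorem cube2_inv {n : ℕ} {α : Fin n → ℝ} (hα : ∀ i, 0 < α i) (x : E n) :
    dg α (WithLp.toLp 2 fun i => x i / α i) = x := by
  ext i
  show α i * (x i / α i) = x i
  field_simp [(hα i).ne']

/-- PROOF: for `n ≥ 2` the point with all coordinates `9 / 10` is in the cube and has norm `> 1`. -/
theorem cube_ne {n : ℕ} (hn : 2 ≤ n) : cube n ≠ ball 0 1 := by
  intro h
  have h1 : (WithLp.toLp 2 fun _ => (9 : ℝ) / 10 : E n) ∈ cube n := by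
    intro i
    show |(9 : ℝ) / 10| < 1
    rw [abs_of_pos (by norm_num)]
    norm_num
  rw [h, mem_ball_zero_iff, cube2_lt] at h1
  have h2 : ∑ i : Fin n, (WithLp.toLp 2 fun _ => (9 : ℝ) / 10 : E n) i ^ 2 = n * ((9 : ℝ) / 10) ^ 2 := by
    show ∑ _i : Fin n, ((9 : ℝ) / 10) ^ 2 = _
    rw [Finset.sum_const, Finset.card_univ, Fintype.card_fin, nsmul_eq_mul]
  rw [h2] at h1
  have hn' : (2 : ℝ) ≤ n := by exact_mod_cast hn
  nlinarith

theorem ellipsoid_eq {n : ℕ} {α : Fin n → ℝ} (hα : ∀ i, 0 < α i) :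
    {x : E n | ∑ i, (x i / α i) ^ 2 < 1} = dil α (ball 0 1) := by
  ext x
  constructor
  · intro hx
    refine ⟨WithLp.toLp 2 fun i => x i / α i, ?_, cube2_inv hα x⟩
    rw [mem_ball_zero_iff, cube2_lt]
    exact hx
  · rintro ⟨y, hy, rfl⟩
    rw [mem_ball_zero_iff, cube2_lt] at hy
    show ∑ i, (α i * y i / α i) ^ 2 < 1
    have h1 : ∑ i, (α i * y i / α i) ^ 2 = ∑ i, y i ^ 2 := by
      refine Finset.sum_congr rfl fun i _ => ?_
      rw [mul_div_assoc, mul_div_cancel₀ _ (hα i).ne']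
    rw [h1]
    exact hy

theorem box_eq {n : ℕ} {α : Fin n → ℝ} (hα : ∀ i, 0 < α i) :
    {x : E n | ∀ i, |x i| < α i} = dil α (cube n) := by
  ext x
  constructor
  · intro hx
    refine ⟨WithLp.toLp 2 fun i => x i / α i, fun i => ?_, cube2_inv hα x⟩
    show |x i / α i| < 1
    rw [abs_div, abs_of_pos (hα i), div_lt_one (hα i)]
    exact hx i
  · rintro ⟨y, hy, rfl⟩ i
    show |α i * y i| < α i
    rw [abs_mul, abs_of_pos (hα i)]
    calc α i * |y i| < α i * 1 := mul_lt_mul_of_pos_left (hy i) (hα i)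
      _ = α i := mul_one _

end BM939
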