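import Pool.Agent.Lib.MP_939ffc_anC.Defs

/-!
# MP_939ffc_an: diagonal images of symmetric bodies: definitions
-/

open MeasureTheory Set Metric Filter Topology
open Pool.Agent.Lib.MP_deb14e_an Pool.Agent.MPdeb14eM

namespace BM939

/-- The diagonal map with entries `a i`. -/
noncomputable def dg {n : ℕ} (a : Fin n → ℝ) (x : E n) : E n := WithLp.toLp 2 fun i => a i * x i

/-- The image of `K` under the diagonal map with entries `a i`. -/
def dil {n : ℕ} (a : Fin n → ℝ) (K : Set (E n)) : Set (E n) := dg a '' K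

/-- The signed permutation of the coordinates. -/
noncomputable def sp {n : ℕ} (σ : Equiv.Perm (Fin n)) (e : Fin n → ℝ) (x : E n) : E n :=
  WithLp.toLp 2 fun i => e i * x (σ i)

/-- `K` is invariant under all permutations and all sign changes of the coordinates. -/
def SignedPermInvariant {n : ℕ} (K : Set (E n)) : Prop :=
  ∀ (σ : Equiv.Perm (Fin n)) (e : Fin n → ℝ), (∀ i, e i = 1 ∨ e i = -1) → ∀ x ∈ K, sp σ e x ∈ K

/-! ### Auxiliary notions -/

/-- The transposition of two coordinates. -/
noncomputable def sw {n : ℕ} (i j : Fin n) (x : E n) : E n :=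
  WithLp.toLp 2 fun k => x (Equiv.swap i j k)

/-- A finite set invariant under signed permutations. -/
def SymF {n : ℕ} (S : Finset (E n)) : Prop :=
  ∀ (σ : Equiv.Perm (Fin n)) (e : Fin n → ℝ), (∀ i, e i = 1 ∨ e i = -1) → ∀ a ∈ S, sp σ e a ∈ S

/-- The diagonal map as an embedding. -/
noncomputable def dgE {n : ℕ} (b : Fin n → ℝ) (hb : ∀ i, 0 < b i) : E n ↪ E n :=
  ⟨dg b, fun x y h => by
    ext i
    have h1 : (dg b x) i = (dg b y) i := by rw [h]
    exact mul_left_cancel₀ (hb i).ne' h1⟩

/-- The integral of the square of the `i`-th coordinate over the cone on a facet. -/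
noncomputable def sec {n : ℕ} (S : Finset (E n)) (a : E n) (i : Fin n) : ℝ :=
  ∫ y in coneOn (facet S a), (y i) ^ 2

/-- The mean of the inverses. -/
noncomputable def mb {n : ℕ} (α : Fin n → ℝ) : ℝ := (∑ i, (α i)⁻¹) / n

/-- The mean of the squares. -/
noncomputable def ma {n : ℕ} (α : Fin n → ℝ) : ℝ := (∑ i, α i ^ 2) / n

/-- The quadratic mean of the inverses. -/
noncomputable def mq {n : ℕ} (α : Fin n → ℝ) : ℝ := √((∑ i, (α i)⁻¹ ^ 2) / n)

end BM939
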