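import Pool.Agent.Lib.MP_939ffc_anD.Defs
import Pool.Agent.Lib.MP_939ffc_anC.Poly1

open MeasureTheory Set Metric Filter Topology
open scoped ENNReal NNReal Pointwise
open Pool.Agent.Lib.MP_deb14e_an Pool.Agent.MPdeb14eM

namespace BM939

private theorem Dil_apply {n : ℕ} (a : Fin n → ℝ) (x : E n) (i : Fin n) : dg a x i = a i * x i := rfl

private theorem Dil_inner {n : ℕ} {α : Fin n → ℝ} (hα : ∀ i, 0 < α i) (a y : E n) :
    inner ℝ (dg (fun i => (α i)⁻¹) a) (dg α y) = inner ℝ a y := by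
  rw [PiLp.inner_apply, PiLp.inner_apply]
  refine Finset.sum_congr rfl fun i _ => ?_
  show (α i * y i) * ((α i)⁻¹ * a i) = y i * a i
  have h1 : α i ≠ 0 := (hα i).ne'
  field_simp

private theorem Dil_inv {n : ℕ} {α : Fin n → ℝ} (hα : ∀ i, 0 < α i) (x : E n) :
    dg α (dg (fun i => (α i)⁻¹) x) = x := by
  ext i
  rw [Dil_apply, Dil_apply, mul_inv_cancel_left₀ (hα i).ne']

private theorem Dil_smul {n : ℕ} (α : Fin n → ℝ) (s : ℝ) (x : E n) :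
    dg α (s • x) = s • dg α x := by
  ext i
  show α i * (s * x i) = s * (α i * x i)
  ring

/-- PROOF: `⟨α⁻¹ a, α y⟩ = ⟨a, y⟩`. -/
theorem dil_poly {n : ℕ} {α : Fin n → ℝ} (hα : ∀ i, 0 < α i) (S : Finset (E n)) :
    dil α (poly S) = poly (S.map (dgE (fun i => (α i)⁻¹) fun i => inv_pos.2 (hα i))) := by
  ext x
  constructor
  · rintro ⟨y, hy, rfl⟩ b hb
    obtain ⟨a, ha, rfl⟩ := Finset.mem_map.1 hb
    show inner ℝ (dg (fun i => (α i)⁻¹) a) (dg α y) < 1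
    rw [Dil_inner hα]
    exact hy a ha
  · intro hx
    refine ⟨dg (fun i => (α i)⁻¹) x, fun a ha => ?_, Dil_inv hα x⟩
    rw [← Dil_inner hα, Dil_inv hα]
    exact hx _ (Finset.mem_map.2 ⟨a, ha, rfl⟩)

private theorem Dil_facet {n : ℕ} {α : Fin n → ℝ} (hα : ∀ i, 0 < α i) (S : Finset (E n)) (a : E n) :
    facet (S.map (dgE (fun i => (α i)⁻¹) fun i => inv_pos.2 (hα i))) (dg (fun i => (α i)⁻¹) a) =
      dil α (facet S a) := by
  ext x
  constructor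
  · rintro ⟨h1, h2⟩
    refine ⟨dg (fun i => (α i)⁻¹) x, ⟨?_, fun b hb => ?_⟩, Dil_inv hα x⟩
    · rw [← Dil_inner hα, Dil_inv hα]
      exact h1
    · rw [← Dil_inner hα, Dil_inv hα]
      exact h2 _ (Finset.mem_map.2 ⟨b, hb, rfl⟩)
  · rintro ⟨y, ⟨h1, h2⟩, rfl⟩
    refine ⟨?_, fun c hc => ?_⟩
    · rw [Dil_inner hα]
      exact h1
    · obtain ⟨b, hb, rfl⟩ := Finset.mem_map.1 hc
      show inner ℝ (dg (fun i => (α i)⁻¹) b) (dg α y) ≤ 1
      rw [Dil_inner hα]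
      exact h2 b hb

/-- PROOF: as `dil_poly`, and `dg α (s • x) = s • dg α x`. -/
theorem coneOn_facet_dil {n : ℕ} {α : Fin n → ℝ} (hα : ∀ i, 0 < α i) (S : Finset (E n)) (a : E n) :
    coneOn (facet (S.map (dgE (fun i => (α i)⁻¹) fun i => inv_pos.2 (hα i))) (dg (fun i => (α i)⁻¹) a)) =
      dil α (coneOn (facet S a)) := by
  rw [Dil_facet hα]
  ext y
  constructor
  · rintro ⟨s, hs, x, ⟨z, hz, rfl⟩, rfl⟩
    exact ⟨s • z, ⟨s, hs, z, hz, rfl⟩, Dil_smul α s z⟩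
  · rintro ⟨w, ⟨s, hs, z, hz, rfl⟩, rfl⟩
    exact ⟨s, hs, dg α z, ⟨z, hz, rfl⟩, Dil_smul α s z⟩

end BM939
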