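import Pool.Agent.Lib.MP_939ffc_anD.Defs


open MeasureTheory Set Metric Filter Topology
open scoped ENNReal NNReal Pointwise
open Pool.Agent.Lib.MP_deb14e_an Pool.Agent.MPdeb14eM

namespace BM939

private noncomputable def dvL {n : ℕ} (α : Fin n → ℝ) : E n →ₗ[ℝ] E n :=
  Matrix.toEuclideanLin (Matrix.diagonal α)

private theorem dvL_apply {n : ℕ} (α : Fin n → ℝ) (x : E n) : dvL α x = dg α x := by
  ext i
  simp [dvL, dg, Matrix.toEuclideanLin_apply, Matrix.mulVec_diagonal]

private theorem dvL_det {n : ℕ} (α : Fin n → ℝ) : LinearMap.det (dvL α) = ∏ i, α i := by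
  rw [dvL, Matrix.toEuclideanLin_eq_toLin_orthonormal, LinearMap.det_toLin, Matrix.det_diagonal]

/-- PROOF: change of variables for the linear map `dg α` with determinant `∏ α`
(`lintegral_image_eq_lintegral_abs_det_fderiv_mul`, or `Measure.addHaar` and `lintegral_map`). -/
theorem lintegral_dil {n : ℕ} {α : Fin n → ℝ} (hα : ∀ i, 0 < α i) {F : Set (E n)} (hF : MeasurableSet F)
    {f : E n → ℝ≥0∞} (hf : Measurable f) :
    ∫⁻ x in dil α F, f x = ENNReal.ofReal (∏ i, α i) * ∫⁻ x in F, f (dg α x) := by
  have hL : dg α = fun x => LinearMap.toContinuousLinearMap (dvL α) x := by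
    funext x
    exact (dvL_apply α x).symm
  have hinj : Function.Injective (dg α) := by
    intro x y h
    ext i
    have h1 : (dg α x) i = (dg α y) i := by rw [h]
    exact mul_left_cancel₀ (hα i).ne' h1
  have hd : ∀ x ∈ F, HasFDerivWithinAt (dg α) (LinearMap.toContinuousLinearMap (dvL α)) F x := by
    intro x _
    rw [hL]
    exact (LinearMap.toContinuousLinearMap (dvL α)).hasFDerivWithinAt
  have hprod : 0 ≤ ∏ i, α i := Finset.prod_nonneg fun i _ => (hα i).le
  have hmeas : Measurable (dg α) := by
    rw [hL]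
    exact (LinearMap.toContinuousLinearMap (dvL α)).continuous.measurable
  unfold dil
  rw [lintegral_image_eq_lintegral_abs_det_fderiv_mul volume hF hd hinj.injOn]
  rw [LinearMap.det_toContinuousLinearMap, dvL_det, abs_of_nonneg hprod]
  exact lintegral_const_mul _ (hf.comp hmeas)

end BM939
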