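import Pool.Agent.Lib.MP_939ffc_anD.Defs
import Pool.Agent.Lib.MP_939ffc_anD.DilVol
import Pool.Agent.Lib.MP_939ffc_anC.Scale

open MeasureTheory Set Metric Filter Topology
open scoped ENNReal NNReal Pointwise
open Pool.Agent.Lib.MP_deb14e_an Pool.Agent.MPdeb14eM

namespace BM939

/-- The diagonal map as a linear map. -/
private noncomputable def dilDomLin {n : ℕ} (α : Fin n → ℝ) : E n →ₗ[ℝ] E n where
  toFun := dg α
  map_add' x y := by
    ext i
    simp [dg, mul_add]
  map_smul' c x := by
    ext i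
    simp [dg]
    ring

private theorem dilDom_inv {n : ℕ} {α : Fin n → ℝ} (hα : ∀ i, 0 < α i) (x : E n) :
    dg (fun i => (α i)⁻¹) (dg α x) = x := by
  ext i
  simp [dg, inv_mul_cancel_left₀ (hα i).ne']

private theorem dilDom_inv' {n : ℕ} {α : Fin n → ℝ} (hα : ∀ i, 0 < α i) (x : E n) :
    dg α (dg (fun i => (α i)⁻¹) x) = x := by
  ext i
  simp [dg, mul_inv_cancel_left₀ (hα i).ne']

private theorem dilDom_cont {n : ℕ} (α : Fin n → ℝ) : Continuous (dg α : E n → E n) :=
  (dilDomLin α).continuous_of_finiteDimensional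

/-- The diagonal map as a homeomorphism. -/
private noncomputable def dilDomHomeo {n : ℕ} {α : Fin n → ℝ} (hα : ∀ i, 0 < α i) : E n ≃ₜ E n where
  toFun := dg α
  invFun := dg (fun i => (α i)⁻¹)
  left_inv := dilDom_inv hα
  right_inv := dilDom_inv' hα
  continuous_toFun := dilDom_cont α
  continuous_invFun := dilDom_cont _

theorem convexDomain_dil {n : ℕ} {α : Fin n → ℝ} (hα : ∀ i, 0 < α i) {K : Set (E n)} (hK : ConvexDomain K) :
    ConvexDomain (dil α K) := by
  obtain ⟨h1, h2, h3, h4⟩ := hK
  refine ⟨h1.image _, ?_, ?_, ?_⟩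
  · have h5 : IsCompact (dg α '' closure K) := h2.isCompact_closure.image (dilDom_cont α)
    exact h5.isBounded.subset (image_mono subset_closure)
  · exact (dilDomHomeo hα).isOpenMap K h3
  · exact h4.linear_image (dilDomLin α)

/-- PROOF: `lintegral_dil` with `f = 1`. -/
theorem volume_dil {n : ℕ} {α : Fin n → ℝ} (hα : ∀ i, 0 < α i) {K : Set (E n)} (hK : MeasurableSet K) :
    volume (dil α K) = ENNReal.ofReal (∏ i, α i) * volume K := by
  have h := lintegral_dil hα hK (f := fun _ => 1) measurable_const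
  simpa using h

/-- PROOF: `dg α (c • x) = c • dg α x`. -/
theorem dil_smul {n : ℕ} (α : Fin n → ℝ) (c : ℝ) (K : Set (E n)) : dil α (c • K) = c • dil α K := by
  have h := image_smul_comm (dg α : E n → E n) c K (fun x => (dilDomLin α).map_smul c x)
  exact h

theorem dil_mono {n : ℕ} (α : Fin n → ℝ) {K L : Set (E n)} (h : K ⊆ L) : dil α K ⊆ dil α L :=
  image_mono h

/-- PROOF: `dil α K = (fun x => 0 + c • x) '' K` and `calF_homothety` (Scale.lean). -/
theorem calF_dil_const {m : ℕ} (hm : 1 ≤ m) {c : ℝ} (hc : 0 < c) (K : Set (E (m + 1))) :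
    calF (dil (fun _ => c) K) = calF K := by
  have h : dil (fun _ => c) K = (fun x => (0 : E (m + 1)) + c • x) '' K := by
    unfold dil
    apply image_congr
    intro x _
    ext i
    simp [dg]
  rw [h]
  exact calF_homothety hm K 0 hc

end BM939
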