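import Pool.Agent.Lib.MP_939ffc_anD.Defs
import Pool.Agent.Lib.MP_939ffc_anC.Poly4

open MeasureTheory Set Metric Filter Topology
open scoped ENNReal NNReal Pointwise
open Pool.Agent.Lib.MP_deb14e_an Pool.Agent.MPdeb14eM

namespace BM939

private theorem null_ker_null {n : ℕ} {v : E n} (hv : v ≠ 0) :
    volume {w : E n | (inner ℝ v w : ℝ) = 0} = 0 := by
  have h1 : {w : E n | (inner ℝ v w : ℝ) = 0} =
      ((LinearMap.ker (innerSL ℝ v).toLinearMap : Submodule ℝ (E n)) : Set (E n)) := by
    ext w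
    simp
  rw [h1]
  refine Measure.addHaar_submodule _ _ fun htop => hv ?_
  have h2 : v ∈ LinearMap.ker (innerSL ℝ v).toLinearMap := by
    rw [htop]
    exact Submodule.mem_top
  have h3 : (inner ℝ v v : ℝ) = 0 := by simpa using h2
  exact inner_self_eq_zero.1 h3

private theorem null_hyper_null {n : ℕ} {v : E n} (hv : v ≠ 0) (c : ℝ) :
    volume {w : E n | (inner ℝ v w : ℝ) = c} = 0 := by
  have hvv : (inner ℝ v v : ℝ) ≠ 0 := fun h => hv (inner_self_eq_zero.1 h)
  have h1 : {w : E n | (inner ℝ v w : ℝ) = c} =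
      (fun w => w + -((c / inner ℝ v v) • v)) ⁻¹' {w : E n | (inner ℝ v w : ℝ) = 0} := by
    ext w
    simp only [mem_ofPred_eq, mem_preimage, inner_add_right, inner_neg_right,
      real_inner_smul_right]
    rw [div_mul_cancel₀ _ hvv, ← sub_eq_add_neg, sub_eq_zero]
  rw [h1, measure_preimage_add_right]
  exact null_ker_null hv

/-- PROOF: as `facet_inter_null` (Poly2.lean) for general nonzero `a`: `μH[m]` of the intersection of the two
different hyperplanes `⟨a, x⟩ = 1`, `⟨b, x⟩ = 1` is zero (rotate `a / ‖a‖` to the first coordinate by `exists_rot`). -/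
theorem facet_inter_null' {m : ℕ} {S : Finset (E (m + 1))} {a b : E (m + 1)} (ha : a ≠ 0) (hab : a ≠ b) :
    (Measure.hausdorffMeasure (m : ℝ) : Measure (E (m + 1))) (facet S a ∩ facet S b) = 0 := by
  have hna : ‖a‖ ≠ 0 := norm_ne_zero_iff.2 ha
  obtain ⟨e, he⟩ := exists_rot (‖a‖⁻¹ • a) (by
    rw [norm_smul, norm_inv, norm_norm, inv_mul_cancel₀ hna])
  have he' : ∀ x, (e x) 0 = ‖a‖⁻¹ * inner ℝ a x := fun x => by rw [he, real_inner_smul_left]
  have hA0 : volume {w : E m | (inner ℝ (tl (e b)) w : ℝ) = 1 - ‖a‖⁻¹ * (e b) 0} = 0 := by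
    by_cases ht : tl (e b) = 0
    · have h2 : {w : E m | (inner ℝ (tl (e b)) w : ℝ) = 1 - ‖a‖⁻¹ * (e b) 0} = ∅ := by
        ext w
        simp only [mem_ofPred_eq, mem_empty_iff_false, iff_false]
        intro h
        rw [ht, inner_zero_left] at h
        have h3 : (e b) 0 = ‖a‖ := by
          field_simp at h
          linarith
        have h4 : (e a) 0 = ‖a‖ := by
          rw [he', real_inner_self_eq_norm_sq]
          field_simp
        have h5 : tl (e a) = 0 := by
          have h6 := norm_sq_eq (e a)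
          rw [e.norm_map, h4] at h6
          have h7 : ‖tl (e a)‖ ^ 2 = 0 := by linarith
          exact norm_eq_zero.1 (pow_eq_zero_iff (two_ne_zero)|>.1 h7)
        apply hab
        apply e.injective
        rw [← cons_tl (e a), ← cons_tl (e b), h3, h4, h5, ht]
      rw [h2, measure_empty]
    · exact null_hyper_null ht _
  have hAm : MeasurableSet {w : E m | (inner ℝ (tl (e b)) w : ℝ) = 1 - ‖a‖⁻¹ * (e b) 0} :=
    (isClosed_eq (continuous_const.inner continuous_id) continuous_const).measurableSet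
  have hsub : e '' (facet S a ∩ facet S b) ⊆
      cons ‖a‖⁻¹ '' {w : E m | (inner ℝ (tl (e b)) w : ℝ) = 1 - ‖a‖⁻¹ * (e b) 0} := by
    rintro _ ⟨x, ⟨hx1, hx2⟩, rfl⟩
    have h0 : (e x) 0 = ‖a‖⁻¹ := by rw [he', hx1.1, mul_one]
    refine ⟨tl (e x), ?_, ?_⟩
    · have h3 : (inner ℝ (e b) (e x) : ℝ) = 1 := by
        rw [e.inner_map_map]
        exact hx2.1
      rw [inner_eq, h0] at h3
      rw [mem_ofPred_eq]
      linarith
    · rw [← h0]
      exact cons_tl (e x)
  have hiso := e.isometry.hausdorffMeasure_image (d := (m : ℝ)) (Or.inl (Nat.cast_nonneg m))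
    (facet S a ∩ facet S b)
  rw [← hiso]
  refine measure_mono_null hsub ?_
  have h4 := lintegral_cons (‖a‖⁻¹ : ℝ) hAm (f := fun _ => 1) measurable_const
  simp only [lintegral_const, one_mul, Measure.restrict_apply_univ, hA0, mul_zero] at h4
  exact h4

end BM939
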