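import Pool.Agent.Lib.MP_939ffc_anD.Defs
import Pool.Agent.Lib.MP_939ffc_anD.Null

open MeasureTheory Set Metric Filter Topology
open scoped ENNReal NNReal Pointwise
open Pool.Agent.Lib.MP_deb14e_an Pool.Agent.MPdeb14eM

namespace BM939

private theorem polyL_facet_zero {n : ℕ} (S : Finset (E n)) : facet S (0 : E n) = ∅ := by
  ext x
  simp only [mem_empty_iff_false, iff_false]
  rintro ⟨h, -⟩
  rw [inner_zero_left] at h
  exact zero_ne_one h

private theorem polyL_cone_empty {n : ℕ} : coneOn (∅ : Set (E n)) = ∅ := by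
  ext x
  simp only [mem_empty_iff_false, iff_false]
  rintro ⟨s, -, y, hy, -⟩
  exact hy

/-- PROOF: as the first half of `le_bd_poly` (Poly4.lean): the facets are measurable subsets of the frontier
(`facet_subset_frontier`) with pairwise null intersections (`facet_inter_null'`), and `cone_formula` with
`u = a / ‖a‖`, `h = 1 / ‖a‖` (a facet with `a = 0` is empty). -/
theorem sum_le_bd_poly {m p : ℕ} (S : Finset (E (m + 1))) :
    ∑ a ∈ S, ENNReal.ofReal (kap m * (m + 1 + p) * ‖a‖) * mom p (coneOn (facet S a)) ≤ bd p (poly S) := by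
  have hdisj : Set.Pairwise (↑S : Set (E (m + 1))) (Function.onFun (AEDisjoint
      (Measure.hausdorffMeasure (m : ℝ) : Measure (E (m + 1)))) (fun a => facet S a)) := by
    intro a ha b hb' hab
    by_cases ha0 : a = 0
    · subst ha0
      show (Measure.hausdorffMeasure (m : ℝ) : Measure (E (m + 1))) (facet S 0 ∩ facet S b) = 0
      rw [polyL_facet_zero, empty_inter, measure_empty]
    · exact facet_inter_null' ha0 hab
  have hmeas : ∀ a ∈ S, NullMeasurableSet (facet S a)
      (Measure.hausdorffMeasure (m : ℝ) : Measure (E (m + 1))) := fun a _ =>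
    (isClosed_facet S a).measurableSet.nullMeasurableSet
  have h1 : ∑ a ∈ S, ∫⁻ x in facet S a, ENNReal.ofReal (‖x‖ ^ p)
      ∂(Measure.hausdorffMeasure (m : ℝ)) ≤ bd p (poly S) := by
    rw [← lintegral_biUnion_finset₀ hdisj hmeas, bd]
    exact lintegral_mono_set (Set.iUnion₂_subset fun a ha => facet_subset_frontier ha)
  refine le_trans (le_of_eq (Finset.sum_congr rfl fun a ha => ?_)) h1
  by_cases ha0 : a = 0
  · subst ha0
    rw [polyL_facet_zero, polyL_cone_empty]
    simp [mom]
  · have hn : 0 < ‖a‖ := norm_pos_iff.2 ha0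
    have hu : ‖(‖a‖⁻¹ : ℝ) • a‖ = 1 := by
      rw [norm_smul, norm_inv, norm_norm, inv_mul_cancel₀ hn.ne']
    have h := cone_formula p hu (inv_pos.2 hn) (isClosed_facet S a).measurableSet
      (fun x hx => by rw [real_inner_smul_left, hx.1, mul_one])
    rw [h, div_inv_eq_mul]
    rfl

end BM939
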