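import Pool.Agent.Lib.MP_939ffc_anD.Defs
import Pool.Agent.Lib.MP_939ffc_anC.Poly1

open MeasureTheory Set Metric Filter Topology
open scoped ENNReal NNReal Pointwise
open Pool.Agent.Lib.MP_deb14e_an Pool.Agent.MPdeb14eM

namespace BM939

/-- The change of `⟨a, y⟩` when two coordinates of `a` are exchanged and multiplied by `ε`. -/
private theorem signCone_sub {n : ℕ} {i j : Fin n} (hij : i ≠ j) (a y : E n) (ε : ℝ) :
    (inner ℝ a y : ℝ) - inner ℝ (sp (Equiv.swap i j) (fun k => if k = i ∨ k = j then ε else 1) a) y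
      = (a i - ε * a j) * y i + (a j - ε * a i) * y j := by
  rw [← inner_sub_left, PiLp.inner_apply, Fintype.sum_eq_add i j hij]
  · simp [sp]
    ring
  · rintro k ⟨hki, hkj⟩
    simp [sp, hki, hkj, Equiv.swap_apply_of_ne_of_ne hki hkj]

private theorem signCone_point {n : ℕ} {S : Finset (E n)} (hS : SymF S) {i j : Fin n} (hij : i ≠ j)
    {a : E n} (ha : a ∈ S) {y : E n} (hy : y ∈ coneOn (facet S a)) :
    0 ≤ (a i ^ 2 - a j ^ 2) * ((y i) ^ 2 - (y j) ^ 2) := by
  rw [coneOn_facet] at hy
  have h1 := hy.2.2 _ (hS (Equiv.swap i j) (fun k => if k = i ∨ k = j then (1 : ℝ) else 1)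
    (fun k => by left; split_ifs <;> rfl) a ha)
  have h2 := hy.2.2 _ (hS (Equiv.swap i j) (fun k => if k = i ∨ k = j then (-1 : ℝ) else 1)
    (fun k => by
      by_cases h : k = i ∨ k = j
      · right; rw [if_pos h]
      · left; rw [if_neg h]) a ha)
  have e1 := signCone_sub hij a y 1
  have e2 := signCone_sub hij a y (-1)
  have g1 : 0 ≤ (a i - a j) * (y i - y j) := by linarith
  have g2 : 0 ≤ (a i + a j) * (y i + y j) := by linarith
  have g3 := mul_nonneg g1 g2
  have e3 : (a i ^ 2 - a j ^ 2) * ((y i) ^ 2 - (y j) ^ 2)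
      = (a i - a j) * (y i - y j) * ((a i + a j) * (y i + y j)) := by ring
  rw [e3]
  exact g3

private theorem signCone_int {n : ℕ} {S : Finset (E n)} (hb : Bornology.IsBounded (poly S))
    {a : E n} (ha : a ∈ S) (i : Fin n) :
    IntegrableOn (fun y : E n => (y i) ^ 2) (coneOn (facet S a)) := by
  have hc : Continuous fun y : E n => (y i) ^ 2 := by fun_prop
  have hK : IsCompact (closure (poly S)) := hb.isCompact_closure
  exact (hc.continuousOn.integrableOn_compact hK).mono_set
    ((coneOn_facet_subset ha).trans subset_closure)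

/-- PROOF: for `x ∈ facet S a`: `1 = ⟨a, x⟩` and `⟨a', x⟩ ≤ 1` for `a' = sw i j a ∈ S` gives
`(a i - a j) * (x i - x j) ≥ 0`; the same with `a'` = the swap with both signs changed gives
`(a i + a j) * (x i + x j) ≥ 0`; multiply. So `(a i ^ 2 - a j ^ 2) * (y i ^ 2 - y j ^ 2) ≥ 0` on the cone; integrate
(`sec` is finite since `poly S` is bounded, `coneOn_facet_subset`). -/
theorem sec_sign {n : ℕ} {S : Finset (E n)} (hS : SymF S) (hb : Bornology.IsBounded (poly S)) (i j : Fin n)
    {a : E n} (ha : a ∈ S) : 0 ≤ (a i ^ 2 - a j ^ 2) * (sec S a i - sec S a j) := by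
  by_cases hij : i = j
  · subst hij
    simp
  · unfold sec
    rw [← integral_sub (signCone_int hb ha i) (signCone_int hb ha j), ← integral_const_mul]
    exact setIntegral_nonneg (measurableSet_coneOn_facet S a) fun y hy => signCone_point hS hij ha hy

end BM939
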