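import Pool.Agent.Lib.MP_939ffc_anD.Defs


open MeasureTheory Set Metric Filter Topology
open scoped ENNReal NNReal Pointwise
open Pool.Agent.Lib.MP_deb14e_an Pool.Agent.MPdeb14eM

namespace BM939

private theorem sua_sw_sw {n : ℕ} (i j : Fin n) (a : E n) : sw i j (sw i j a) = a := by
  ext k
  show a (Equiv.swap i j (Equiv.swap i j k)) = a k
  rw [Equiv.swap_apply_self]

private theorem sua_norm {n : ℕ} (b : Fin n → ℝ) (a : E n) :
    ‖dg b a‖ ^ 2 = ∑ k, b k ^ 2 * a k ^ 2 := by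
  rw [EuclideanSpace.norm_sq_eq]
  refine Finset.sum_congr rfl fun k _ => ?_
  show ‖b k * a k‖ ^ 2 = _
  rw [Real.norm_eq_abs, sq_abs, mul_pow]

private theorem sua_diff {n : ℕ} (b : Fin n → ℝ) (a : E n) {i j : Fin n} (hij : i ≠ j) :
    ‖dg b a‖ ^ 2 - ‖dg b (sw i j a)‖ ^ 2 = (b i ^ 2 - b j ^ 2) * (a i ^ 2 - a j ^ 2) := by
  rw [sua_norm, sua_norm, ← Finset.sum_sub_distrib]
  have h1 : ∀ k, k ≠ i → k ≠ j → b k ^ 2 * a k ^ 2 - b k ^ 2 * (sw i j a) k ^ 2 = 0 := by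
    intro k h1 h2
    have : (sw i j a) k = a k := by
      show a (Equiv.swap i j k) = a k
      rw [Equiv.swap_apply_of_ne_of_ne h1 h2]
    rw [this, sub_self]
  have hi : (sw i j a) i = a j := by
    show a (Equiv.swap i j i) = a j
    rw [Equiv.swap_apply_left]
  have hj : (sw i j a) j = a i := by
    show a (Equiv.swap i j j) = a i
    rw [Equiv.swap_apply_right]
  rw [← Finset.add_sum_erase Finset.univ _ (Finset.mem_univ i),
    ← Finset.add_sum_erase _ _ (Finset.mem_erase.2 ⟨hij.symm, Finset.mem_univ j⟩),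
    Finset.sum_eq_zero, hi, hj]
  · ring
  · intro k hk
    rw [Finset.mem_erase, Finset.mem_erase] at hk
    exact h1 k hk.2.1 hk.1

/-- PROOF: with `W i = ∑ a ∈ S, ‖dg b a‖ * Y a i`, `b = α⁻¹`: (1) `α i ≤ α j → W j ≤ W i`: reindexing by `sw i j`,
`2 (W i - W j) = ∑ a ∈ S, (‖dg b a‖ - ‖dg b (sw i j a)‖) * (Y a i - Y a j)` and
`‖dg b a‖ ^ 2 - ‖dg b (sw i j a)‖ ^ 2 = (b i ^ 2 - b j ^ 2) * (a i ^ 2 - a j ^ 2)`, so each term is `≥ 0` by `hYo`.
(2) Chebyshev (`Antivary.card_mul_sum_le_sum_mul_sum` or similar): `∑ α i ^ 2 * W i ≤ (∑ α i ^ 2) / n * ∑ W i`.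
(3) see `sum_upper_b`. -/
theorem sum_upper_a {n : ℕ} (hn : 0 < n) (S : Finset (E n)) (hS : ∀ i j, ∀ a ∈ S, sw i j a ∈ S)
    {α : Fin n → ℝ} (hα : ∀ i, 0 < α i) {Y : E n → Fin n → ℝ}
    (hYs : ∀ i j k, ∀ a ∈ S, Y (sw i j a) k = Y a (Equiv.swap i j k))
    (hYo : ∀ i j, ∀ a ∈ S, 0 ≤ (a i ^ 2 - a j ^ 2) * (Y a i - Y a j)) :
    ∑ a ∈ S, ‖dg (fun i => (α i)⁻¹) a‖ * ∑ i, α i ^ 2 * Y a i ≤
      ma α * ∑ a ∈ S, ‖dg (fun i => (α i)⁻¹) a‖ * ∑ i, Y a i := by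
  set b : Fin n → ℝ := fun i => (α i)⁻¹ with hb
  set W : Fin n → ℝ := fun i => ∑ a ∈ S, ‖dg b a‖ * Y a i with hW
  have e1 : ∑ a ∈ S, ‖dg b a‖ * ∑ i, α i ^ 2 * Y a i = ∑ i, W i * α i ^ 2 := by
    simp only [hW, Finset.mul_sum, Finset.sum_mul]
    rw [Finset.sum_comm]
    exact Finset.sum_congr rfl fun i _ => Finset.sum_congr rfl fun a _ => by ring
  have e2 : ∑ a ∈ S, ‖dg b a‖ * ∑ i, Y a i = ∑ i, W i := by
    simp only [hW, Finset.mul_sum]
    rw [Finset.sum_comm]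
  rw [e1, e2]
  have hanti : Antivary W (fun i => α i ^ 2) := by
    intro i j hij
    have hlt : α i < α j := lt_of_pow_lt_pow_left₀ 2 (hα j).le hij
    have hne : i ≠ j := by
      rintro rfl
      exact lt_irrefl _ hlt
    have hbb : 0 ≤ b i ^ 2 - b j ^ 2 := by
      have h1 : b j ≤ b i := inv_anti₀ (hα i) hlt.le
      have h2 : 0 ≤ b j := (inv_pos.2 (hα j)).le
      have h3 := pow_le_pow_left₀ h2 h1 2
      linarith
    have hre : ∀ f : E n → ℝ, ∑ a ∈ S, f (sw i j a) = ∑ a ∈ S, f a := by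
      intro f
      refine Finset.sum_bij' (fun a _ => sw i j a) (fun a _ => sw i j a) (fun a ha => hS i j a ha)
        (fun a ha => hS i j a ha) (fun a _ => sua_sw_sw i j a) (fun a _ => sua_sw_sw i j a)
        (fun a _ => rfl)
    have h1 : W i = ∑ a ∈ S, ‖dg b (sw i j a)‖ * Y a j := by
      show ∑ a ∈ S, ‖dg b a‖ * Y a i = _
      rw [← hre]
      refine Finset.sum_congr rfl fun a ha => ?_
      rw [hYs i j i a ha, Equiv.swap_apply_left]
    have h2 : W j = ∑ a ∈ S, ‖dg b (sw i j a)‖ * Y a i := by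
      show ∑ a ∈ S, ‖dg b a‖ * Y a j = _
      rw [← hre]
      refine Finset.sum_congr rfl fun a ha => ?_
      rw [hYs i j j a ha, Equiv.swap_apply_right]
    have h3 : 2 * (W i - W j) =
        ∑ a ∈ S, (‖dg b a‖ - ‖dg b (sw i j a)‖) * (Y a i - Y a j) := by
      have h4 : 2 * (W i - W j) = (∑ a ∈ S, ‖dg b a‖ * Y a i - ∑ a ∈ S, ‖dg b a‖ * Y a j) +
          (∑ a ∈ S, ‖dg b (sw i j a)‖ * Y a j - ∑ a ∈ S, ‖dg b (sw i j a)‖ * Y a i) := by
        rw [← h1, ← h2]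
        show 2 * (W i - W j) = (W i - W j) + (W i - W j)
        ring
      rw [h4, ← Finset.sum_sub_distrib, ← Finset.sum_sub_distrib, ← Finset.sum_add_distrib]
      exact Finset.sum_congr rfl fun a _ => by ring
    have h5 : 0 ≤ ∑ a ∈ S, (‖dg b a‖ - ‖dg b (sw i j a)‖) * (Y a i - Y a j) := by
      refine Finset.sum_nonneg fun a ha => ?_
      have h6 := sua_diff b a hne
      have h7 := hYo i j a ha
      have hN : 0 ≤ ‖dg b a‖ := norm_nonneg _
      have hN' : 0 ≤ ‖dg b (sw i j a)‖ := norm_nonneg _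
      rcases (add_nonneg hN hN').lt_or_eq with h8 | h8
      · have h9 : (‖dg b a‖ - ‖dg b (sw i j a)‖) * (‖dg b a‖ + ‖dg b (sw i j a)‖) =
            (b i ^ 2 - b j ^ 2) * (a i ^ 2 - a j ^ 2) := by
          rw [← h6]
          ring
        have h10 : 0 ≤ ((‖dg b a‖ - ‖dg b (sw i j a)‖) * (Y a i - Y a j)) *
            (‖dg b a‖ + ‖dg b (sw i j a)‖) := by
          have h11 : ((‖dg b a‖ - ‖dg b (sw i j a)‖) * (Y a i - Y a j)) *
              (‖dg b a‖ + ‖dg b (sw i j a)‖) =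
              (b i ^ 2 - b j ^ 2) * ((a i ^ 2 - a j ^ 2) * (Y a i - Y a j)) := by
            rw [← mul_assoc, ← h9]
            ring
          rw [h11]
          exact mul_nonneg hbb h7
        exact nonneg_of_mul_nonneg_left h10 h8
      · have h9 : ‖dg b a‖ = 0 := by linarith
        have h10 : ‖dg b (sw i j a)‖ = 0 := by linarith
        rw [h9, h10, sub_self, zero_mul]
    linarith
  have h := hanti.card_mul_sum_le_sum_mul_sum
  rw [Fintype.card_fin] at h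
  have hn0 : (0 : ℝ) < n := by exact_mod_cast hn
  unfold ma
  rw [div_mul_eq_mul_div, le_div_iff₀ hn0, mul_comm (∑ i, W i * α i ^ 2), mul_comm (∑ i, α i ^ 2)]
  exact h

end BM939
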