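import Pool.Agent.Lib.MP_939ffc_anD.Defs


open MeasureTheory Set Metric Filter Topology
open scoped ENNReal NNReal Pointwise
open Pool.Agent.Lib.MP_deb14e_an Pool.Agent.MPdeb14eM

namespace BM939

private theorem sumUb_sw_apply {n : ℕ} (i j k : Fin n) (a : E n) : (sw i j a) k = a (Equiv.swap i j k) := rfl

private theorem sumUb_dg_apply {n : ℕ} (b : Fin n → ℝ) (a : E n) (k : Fin n) : (dg b a) k = b k * a k := rfl

private theorem sumUb_normsq {n : ℕ} (a : E n) : ‖a‖ ^ 2 = ∑ i, a i ^ 2 := by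
  rw [EuclideanSpace.norm_sq_eq]
  refine Finset.sum_congr rfl fun i _ => ?_
  rw [Real.norm_eq_abs, sq_abs]

private theorem sumUb_sw_norm {n : ℕ} (i j : Fin n) (a : E n) : ‖sw i j a‖ = ‖a‖ := by
  have h : ‖sw i j a‖ ^ 2 = ‖a‖ ^ 2 := by
    rw [sumUb_normsq, sumUb_normsq]
    exact Equiv.sum_comp (Equiv.swap i j) fun k => a k ^ 2
  have h1 := abs_eq_abs.2 (sq_eq_sq_iff_eq_or_eq_neg.1 h)
  rwa [abs_of_nonneg (norm_nonneg _), abs_of_nonneg (norm_nonneg _)] at h1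

private theorem sumUb_sw_sw {n : ℕ} (i j : Fin n) (a : E n) : sw i j (sw i j a) = a := by
  ext k
  rw [sumUb_sw_apply, sumUb_sw_apply, Equiv.swap_apply_self]

/-- PROOF: for `Q a = ∑ i, Y a i` (or any `Q ≥ 0` with `Q (sw i j a) = Q a`), Cauchy-Schwarz:
`(∑ ‖dg b a‖ Q a)^2 ≤ (∑ ‖a‖ Q a) * (∑ (‖dg b a‖^2 / ‖a‖) Q a)` (terms with `a = 0` vanish) and
`∑ a ∈ S, (‖dg b a‖^2 / ‖a‖) Q a = ∑ i, b i ^ 2 * (∑ a ∈ S, a i ^ 2 / ‖a‖ * Q a)`, where the inner sum does not depend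
on `i` (reindex by `sw i j`), so it equals `(∑ i, b i ^ 2) / n * ∑ ‖a‖ Q a`. -/
theorem sum_upper_b {n : ℕ} (hn : 0 < n) (S : Finset (E n)) (hS : ∀ i j, ∀ a ∈ S, sw i j a ∈ S)
    {b : Fin n → ℝ} (hb : ∀ i, 0 < b i) {Q : E n → ℝ} (hQ : ∀ a ∈ S, 0 ≤ Q a)
    (hQs : ∀ i j, ∀ a ∈ S, Q (sw i j a) = Q a) :
    ∑ a ∈ S, ‖dg b a‖ * Q a ≤ √((∑ i, b i ^ 2) / n) * ∑ a ∈ S, ‖a‖ * Q a := by
  have hn' : (0 : ℝ) < n := by exact_mod_cast hn
  set P : ℝ := ∑ a ∈ S, ‖a‖ * Q a with hP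
  set c : ℝ := √((∑ i, b i ^ 2) / n) with hc
  have hbs : 0 < ∑ i, b i ^ 2 := by
    have : Nonempty (Fin n) := ⟨⟨0, hn⟩⟩
    exact Finset.sum_pos (fun i _ => pow_pos (hb i) 2) Finset.univ_nonempty
  have hc0 : 0 < c := Real.sqrt_pos.2 (div_pos hbs hn')
  have hc2 : c ^ 2 = (∑ i, b i ^ 2) / n := Real.sq_sqrt (div_pos hbs hn').le
  -- the inner sums
  set M : Fin n → ℝ := fun i => ∑ a ∈ S, a i ^ 2 / ‖a‖ * Q a with hM
  have hMij : ∀ i j, M i = M j := by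
    intro i j
    refine Finset.sum_nbij' (sw i j) (sw i j) (fun a ha => hS i j a ha) (fun a ha => hS i j a ha)
      (fun a _ => sumUb_sw_sw i j a) (fun a _ => sumUb_sw_sw i j a) fun a ha => ?_
    rw [sumUb_sw_apply, sumUb_sw_norm, hQs i j a ha, Equiv.swap_apply_right]
  have hMs : ∑ i, M i = P := by
    rw [hM, Finset.sum_comm]
    refine Finset.sum_congr rfl fun a _ => ?_
    rw [← Finset.sum_mul, ← Finset.sum_div, ← sumUb_normsq]
    rcases eq_or_ne ‖a‖ 0 with h | h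
    · rw [h]; simp
    · field_simp
  have hMi : ∀ i, M i = P / n := by
    intro i
    have h1 : ∑ j, M j = ∑ _j : Fin n, M i := Finset.sum_congr rfl fun j _ => hMij j i
    rw [hMs, Finset.sum_const, Finset.card_univ, Fintype.card_fin, nsmul_eq_mul] at h1
    rw [h1]
    field_simp
  have hsq : ∑ a ∈ S, ‖dg b a‖ ^ 2 / ‖a‖ * Q a = c ^ 2 * P := by
    have h1 : ∀ a ∈ S, ‖dg b a‖ ^ 2 / ‖a‖ * Q a = ∑ i, b i ^ 2 * (a i ^ 2 / ‖a‖ * Q a) := by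
      intro a _
      rw [sumUb_normsq, Finset.sum_div, Finset.sum_mul]
      refine Finset.sum_congr rfl fun i _ => ?_
      rw [sumUb_dg_apply]
      ring
    rw [Finset.sum_congr rfl h1, Finset.sum_comm]
    have h2 : ∀ i ∈ (Finset.univ : Finset (Fin n)), ∑ a ∈ S, b i ^ 2 * (a i ^ 2 / ‖a‖ * Q a) =
        b i ^ 2 * (P / n) := by
      intro i _
      rw [← Finset.mul_sum, ← hMi i]
    rw [Finset.sum_congr rfl h2, ← Finset.sum_mul, hc2]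
    ring
  -- the pointwise inequality
  have hpt : ∀ a ∈ S, ‖dg b a‖ * Q a ≤
      (1 / (2 * c)) * (‖dg b a‖ ^ 2 / ‖a‖ * Q a) + (c / 2) * (‖a‖ * Q a) := by
    intro a ha
    have hq := hQ a ha
    rcases eq_or_ne a 0 with h | h
    · have h1 : dg b a = 0 := by
        ext k
        rw [sumUb_dg_apply, h]
        simp
      rw [h1, h]
      simp
    · have h1 : 0 < ‖a‖ := norm_pos_iff.2 h
      have h2 : ‖dg b a‖ ≤ (1 / (2 * c)) * (‖dg b a‖ ^ 2 / ‖a‖) + (c / 2) * ‖a‖ := by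
        have h3 : 0 ≤ (‖dg b a‖ - c * ‖a‖) ^ 2 / (2 * c * ‖a‖) := by positivity
        have h4 : (1 / (2 * c)) * (‖dg b a‖ ^ 2 / ‖a‖) + (c / 2) * ‖a‖ - ‖dg b a‖ =
            (‖dg b a‖ - c * ‖a‖) ^ 2 / (2 * c * ‖a‖) := by
          field_simp
          ring
        linarith
      calc ‖dg b a‖ * Q a ≤ ((1 / (2 * c)) * (‖dg b a‖ ^ 2 / ‖a‖) + (c / 2) * ‖a‖) * Q a :=
            mul_le_mul_of_nonneg_right h2 hq
        _ = _ := by ring
  calc ∑ a ∈ S, ‖dg b a‖ * Q a ≤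
      ∑ a ∈ S, ((1 / (2 * c)) * (‖dg b a‖ ^ 2 / ‖a‖ * Q a) + (c / 2) * (‖a‖ * Q a)) :=
        Finset.sum_le_sum hpt
    _ = (1 / (2 * c)) * (c ^ 2 * P) + (c / 2) * P := by
        rw [Finset.sum_add_distrib, ← Finset.mul_sum, ← Finset.mul_sum, hsq]
    _ = c * P := by
        field_simp
        ring

end BM939
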