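import Pool.Agent.Lib.MP_939ffc_anD.Defs
import Pool.Agent.Lib.MP_939ffc_anC.Poly1

open MeasureTheory Set Metric Filter Topology
open scoped ENNReal NNReal Pointwise
open Pool.Agent.Lib.MP_deb14e_an Pool.Agent.MPdeb14eM

namespace BM939

/-- `sw i j` as a linear isometry. -/
theorem exists_swE {n : ℕ} (i j : Fin n) : ∃ e : E n ≃ₗᵢ[ℝ] E n, ∀ x, e x = sw i j x := by
  refine ⟨LinearIsometryEquiv.piLpCongrLeft 2 ℝ ℝ (Equiv.swap i j), fun x => ?_⟩
  ext k
  rw [LinearIsometryEquiv.piLpCongrLeft_apply]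
  show x ((Equiv.swap i j).symm k) = x (Equiv.swap i j k)
  rw [Equiv.symm_swap]

theorem sw_mem {n : ℕ} {S : Finset (E n)} (hS : SymF S) (i j : Fin n) {a : E n} (ha : a ∈ S) :
    sw i j a ∈ S := by
  have h := hS (Equiv.swap i j) (fun _ => 1) (fun _ => Or.inl rfl) a ha
  have e : sp (Equiv.swap i j) (fun _ => 1) a = sw i j a := by
    ext k
    show 1 * a (Equiv.swap i j k) = a (Equiv.swap i j k)
    rw [one_mul]
  rwa [e] at h

theorem symCone_sw_sw {n : ℕ} (i j : Fin n) (x : E n) : sw i j (sw i j x) = x := by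
  ext k
  show x (Equiv.swap i j (Equiv.swap i j k)) = x k
  rw [Equiv.swap_apply_self]

theorem symCone_cone {n : ℕ} {S : Finset (E n)} (hS : SymF S) (i j : Fin n) (a : E n)
    {e : E n ≃ₗᵢ[ℝ] E n} (he : ∀ x, e x = sw i j x) :
    coneOn (facet S (sw i j a)) = e '' coneOn (facet S a) := by
  have hee : ∀ x, e (e x) = x := fun x => by rw [he, he, symCone_sw_sw]
  have hinner : ∀ x y, (inner ℝ (e x) y : ℝ) = inner ℝ x (e y) := fun x y => by
    have h := e.inner_map_map x (e y)
    rw [hee] at h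
    exact h
  have hfac : ∀ x, x ∈ facet S (sw i j a) ↔ e x ∈ facet S a := by
    intro x
    constructor
    · rintro ⟨h1, h2⟩
      refine ⟨?_, fun b hb => ?_⟩
      · rw [← he, hinner] at h1
        exact h1
      · have h3 := h2 (sw i j b) (sw_mem hS i j hb)
        rw [← he, hinner] at h3
        exact h3
    · rintro ⟨h1, h2⟩
      refine ⟨?_, fun b hb => ?_⟩
      · rw [← he, hinner]
        exact h1
      · have h3 := h2 (sw i j b) (sw_mem hS i j hb)
        rw [← he, hinner, hee] at h3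
        exact h3
  ext y
  constructor
  · rintro ⟨s, hs, x, hx, rfl⟩
    refine ⟨s • e x, ⟨s, hs, e x, (hfac x).1 hx, rfl⟩, ?_⟩
    rw [map_smul, hee]
  · rintro ⟨z, ⟨s, hs, x, hx, rfl⟩, rfl⟩
    refine ⟨s, hs, e x, ?_, by rw [map_smul]⟩
    rw [hfac, hee]
    exact hx

theorem vol_sw {n : ℕ} {S : Finset (E n)} (hS : SymF S) (i j : Fin n) (a : E n) :
    volume (coneOn (facet S (sw i j a))) = volume (coneOn (facet S a)) := by
  obtain ⟨e, he⟩ := exists_swE i j
  have hme : MeasurableEmbedding e := e.toHomeomorph.measurableEmbedding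
  rw [symCone_cone hS i j a he]
  have h := (e.measurePreserving).measure_preimage_emb hme (e '' coneOn (facet S a))
  rw [preimage_image_eq _ e.injective] at h
  exact h.symm

theorem sec_sw {n : ℕ} {S : Finset (E n)} (hS : SymF S) (i j k : Fin n) (a : E n) :
    sec S (sw i j a) k = sec S a (Equiv.swap i j k) := by
  obtain ⟨e, he⟩ := exists_swE i j
  have hme : MeasurableEmbedding e := e.toHomeomorph.measurableEmbedding
  unfold sec
  rw [symCone_cone hS i j a he]
  have h := (e.measurePreserving).setIntegral_preimage_emb hme (fun y : E n => (y k) ^ 2)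
    (e '' coneOn (facet S a))
  rw [preimage_image_eq _ e.injective] at h
  rw [← h]
  refine integral_congr_ae (Eventually.of_forall fun y => ?_)
  show (e y k) ^ 2 = (y (Equiv.swap i j k)) ^ 2
  rw [he]
  rfl

end BM939
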