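import Pool.Agent.Lib.MP_939ffc_anD.Defs
import Pool.Agent.Lib.MP_939ffc_anD.PolyU
import Pool.Agent.Lib.MP_939ffc_anD.PolyL
import Pool.Agent.Lib.MP_939ffc_anD.Dil
import Pool.Agent.Lib.MP_939ffc_anD.DilVol
import Pool.Agent.Lib.MP_939ffc_anD.SumUa
import Pool.Agent.Lib.MP_939ffc_anD.SumUb
import Pool.Agent.Lib.MP_939ffc_anD.SymCone
import Pool.Agent.Lib.MP_939ffc_anD.SignCone

open MeasureTheory Set Metric Filter Topology
open scoped ENNReal NNReal Pointwise
open Pool.Agent.Lib.MP_deb14e_an Pool.Agent.MPdeb14eM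

namespace BM939

private theorem polyM_kap (m : ℕ) : 0 ≤ kap m :=
  div_nonneg ENNReal.toReal_nonneg ENNReal.toReal_nonneg

private theorem polyM_norm_dg {n : ℕ} (α : Fin n → ℝ) (x : E n) :
    ‖dg α x‖ ^ 2 = ∑ i, α i ^ 2 * x i ^ 2 := by
  rw [EuclideanSpace.norm_sq_eq]
  refine Finset.sum_congr rfl fun i _ => ?_
  change ‖α i * x i‖ ^ 2 = _
  rw [Real.norm_eq_abs, sq_abs, mul_pow]

private theorem polyM_norm {n : ℕ} (x : E n) : ‖x‖ ^ 2 = ∑ i, (1 : ℝ) * x i ^ 2 := by
  rw [EuclideanSpace.norm_sq_eq]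
  refine Finset.sum_congr rfl fun i _ => ?_
  rw [Real.norm_eq_abs, sq_abs, one_mul]

private theorem polyM_int {n : ℕ} {S : Finset (E n)} (hb : Bornology.IsBounded (poly S)) {a : E n}
    (ha : a ∈ S) (i : Fin n) :
    Integrable (fun x : E n => (x i) ^ 2) (volume.restrict (coneOn (facet S a))) := by
  have hc : Continuous fun x : E n => (x i) ^ 2 := by fun_prop
  have h1 : IntegrableOn (fun x : E n => (x i) ^ 2) (closure (poly S)) volume :=
    hc.continuousOn.integrableOn_compact hb.isCompact_closure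
  exact h1.mono_set ((coneOn_facet_subset ha).trans subset_closure)

private theorem polyM_lint {n : ℕ} {S : Finset (E n)} (hb : Bornology.IsBounded (poly S)) {a : E n}
    (ha : a ∈ S) {c : Fin n → ℝ} (hc : ∀ i, 0 ≤ c i) :
    ∫⁻ x in coneOn (facet S a), ENNReal.ofReal (∑ i, c i * (x i) ^ 2) =
      ENNReal.ofReal (∑ i, c i * sec S a i) := by
  have hi : ∀ i, Integrable (fun x : E n => c i * (x i) ^ 2)
      (volume.restrict (coneOn (facet S a))) := fun i => (polyM_int hb ha i).const_mul (c i)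
  rw [← ofReal_integral_eq_lintegral_ofReal (integrable_finsetSum _ fun i _ => hi i)
    (Eventually.of_forall fun x => Finset.sum_nonneg fun i _ => mul_nonneg (hc i) (sq_nonneg _)),
    integral_finsetSum _ fun i _ => hi i]
  congr 1
  refine Finset.sum_congr rfl fun i _ => ?_
  rw [integral_const_mul]
  rfl

private theorem polyM_sec_nonneg {n : ℕ} (S : Finset (E n)) (a : E n) (i : Fin n) :
    0 ≤ sec S a i := integral_nonneg fun _ => sq_nonneg _

/-- PROOF: `dil_poly`, `bd_poly_le_sum` with `p = 2` for `S.map (dgE _ _)` (`Finset.sum_map`), `coneOn_facet_dil`,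
`lintegral_dil` (`‖dg α y‖ ^ 2 = ∑ α i ^ 2 * y i ^ 2`), `sum_upper_a` and `sum_upper_b` with `Y = sec S`
(`sec_sw`, `sec_sign`; finite since `poly S` is bounded), and `sum_le_bd_poly` with `p = 2`. -/
theorem polyM {m : ℕ} {S : Finset (E (m + 1))} (hS : SymF S) (hb : Bornology.IsBounded (poly S))
    {α : Fin (m + 1) → ℝ} (hα : ∀ i, 0 < α i) :
    bd 2 (dil α (poly S)) ≤ ENNReal.ofReal ((∏ i, α i) * (ma α * mq α)) * bd 2 (poly S) := by
  obtain ⟨κ, hκdef⟩ : ∃ κ : ℝ, κ = kap m * ((m : ℝ) + 1 + ((2 : ℕ) : ℝ)) := ⟨_, rfl⟩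
  have hκ : 0 ≤ κ := by
    rw [hκdef]
    exact mul_nonneg (polyM_kap m) (by positivity)
  obtain ⟨P, hPdef⟩ : ∃ P : ℝ, P = ∏ i, α i := ⟨_, rfl⟩
  have hP : 0 ≤ P := by
    rw [hPdef]
    exact Finset.prod_nonneg fun i _ => (hα i).le
  have hsw : ∀ i j, ∀ a ∈ S, sw i j a ∈ S := fun i j a ha => sw_mem hS i j ha
  have hu := sum_upper_a (Nat.succ_pos m) S hsw hα (Y := fun a i => sec S a i)
    (fun i j k a _ => sec_sw hS i j k a) (fun i j a ha => sec_sign hS hb i j ha)
  have hv := sum_upper_b (Nat.succ_pos m) S hsw (b := fun i => (α i)⁻¹)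
    (fun i => inv_pos.2 (hα i)) (Q := fun a => ∑ i, sec S a i)
    (fun a _ => Finset.sum_nonneg fun i _ => polyM_sec_nonneg S a i)
    (fun i j a _ => by
      have h1 : ∀ k, sec S (sw i j a) k = sec S a (Equiv.swap i j k) := fun k => sec_sw hS i j k a
      simp only [h1]
      exact Equiv.sum_comp (Equiv.swap i j) fun k => sec S a k)
  have hma : 0 ≤ ma α := div_nonneg (Finset.sum_nonneg fun i _ => sq_nonneg _) (Nat.cast_nonneg _)
  have hmq : √((∑ i, (fun i => (α i)⁻¹) i ^ 2) / ((m + 1 : ℕ) : ℝ)) = mq α := rfl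
  rw [hmq] at hv
  have hterm : ∀ a ∈ S, mom 2 (coneOn (facet S a)) = ENNReal.ofReal (∑ i, sec S a i) := by
    intro a ha
    have h1 := polyM_lint hb ha (c := fun _ => (1 : ℝ)) fun _ => zero_le_one
    simp only [one_mul] at h1
    rw [← h1]
    change ∫⁻ x in coneOn (facet S a), ENNReal.ofReal (‖x‖ ^ 2) = _
    refine lintegral_congr fun x => ?_
    rw [polyM_norm x]
    simp only [one_mul]
  have hterm' : ∀ a ∈ S, mom 2 (dil α (coneOn (facet S a))) =
      ENNReal.ofReal (P * ∑ i, α i ^ 2 * sec S a i) := by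
    intro a ha
    have h1 := polyM_lint hb ha (c := fun i => α i ^ 2) fun i => sq_nonneg _
    change ∫⁻ x in dil α (coneOn (facet S a)), ENNReal.ofReal (‖x‖ ^ 2) = _
    rw [lintegral_dil hα (measurableSet_coneOn_facet S a) (f := fun x => ENNReal.ofReal (‖x‖ ^ 2))
      (ENNReal.measurable_ofReal.comp (measurable_norm.pow_const 2)), ENNReal.ofReal_mul hP, ← h1,
      ← hPdef]
    congr 1
    refine lintegral_congr fun x => ?_
    rw [polyM_norm_dg]
  rw [dil_poly hα S]
  calc bd 2 (poly (S.map (dgE (fun i => (α i)⁻¹) fun i => inv_pos.2 (hα i))))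
      ≤ ∑ a ∈ S.map (dgE (fun i => (α i)⁻¹) fun i => inv_pos.2 (hα i)),
          ENNReal.ofReal (κ * ‖a‖) *
            mom 2 (coneOn (facet (S.map (dgE (fun i => (α i)⁻¹) fun i => inv_pos.2 (hα i))) a)) := by
        rw [hκdef]
        exact bd_poly_le_sum _
    _ = ∑ a ∈ S, ENNReal.ofReal (κ * P * (‖dg (fun i => (α i)⁻¹) a‖ * ∑ i, α i ^ 2 * sec S a i)) := by
        rw [Finset.sum_map]
        refine Finset.sum_congr rfl fun a ha => ?_
        change ENNReal.ofReal (κ * ‖dg (fun i => (α i)⁻¹) a‖) *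
          mom 2 (coneOn (facet _ (dg (fun i => (α i)⁻¹) a))) = _
        rw [coneOn_facet_dil hα S a, hterm' a ha,
          ← ENNReal.ofReal_mul (mul_nonneg hκ (norm_nonneg _))]
        congr 1
        ring
    _ = ENNReal.ofReal (κ * P * ∑ a ∈ S, ‖dg (fun i => (α i)⁻¹) a‖ * ∑ i, α i ^ 2 * sec S a i) := by
        rw [Finset.mul_sum, ENNReal.ofReal_sum_of_nonneg]
        intro a _
        refine mul_nonneg (mul_nonneg hκ hP) (mul_nonneg (norm_nonneg _) ?_)
        exact Finset.sum_nonneg fun i _ => mul_nonneg (sq_nonneg _) (polyM_sec_nonneg S a i)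
    _ ≤ ENNReal.ofReal (κ * P * (ma α * (mq α * ∑ a ∈ S, ‖a‖ * ∑ i, sec S a i))) := by
        refine ENNReal.ofReal_le_ofReal (mul_le_mul_of_nonneg_left ?_ (mul_nonneg hκ hP))
        exact hu.trans (mul_le_mul_of_nonneg_left hv hma)
    _ = ENNReal.ofReal (P * (ma α * mq α)) *
          ∑ a ∈ S, ENNReal.ofReal (κ * ‖a‖) * mom 2 (coneOn (facet S a)) := by
        have h1 : ∑ a ∈ S, ENNReal.ofReal (κ * ‖a‖) * mom 2 (coneOn (facet S a)) =
            ENNReal.ofReal (κ * ∑ a ∈ S, ‖a‖ * ∑ i, sec S a i) := by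
          rw [Finset.mul_sum, ENNReal.ofReal_sum_of_nonneg]
          · refine Finset.sum_congr rfl fun a ha => ?_
            rw [hterm a ha, ← ENNReal.ofReal_mul (mul_nonneg hκ (norm_nonneg _))]
            congr 1
            ring
          · intro a _
            refine mul_nonneg hκ (mul_nonneg (norm_nonneg _) ?_)
            exact Finset.sum_nonneg fun i _ => polyM_sec_nonneg S a i
        have hmq0 : 0 ≤ mq α := Real.sqrt_nonneg _
        rw [h1, ← ENNReal.ofReal_mul (mul_nonneg hP (mul_nonneg hma hmq0))]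
        congr 1
        ring
    _ ≤ ENNReal.ofReal ((∏ i, α i) * (ma α * mq α)) * bd 2 (poly S) := by
        rw [← hPdef, hκdef]
        exact mul_le_mul_right (sum_le_bd_poly S) _

end BM939
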