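import Pool.Agent.Lib.MP_939ffc_anD.Defs
import Pool.Agent.Lib.MP_939ffc_anC.Upper

open MeasureTheory Set Metric Filter Topology
open scoped ENNReal NNReal Pointwise
open Pool.Agent.Lib.MP_deb14e_an Pool.Agent.MPdeb14eM

namespace BM939

theorem neg_mem_of_sym {n : ℕ} {K : Set (E n)} (hs : SignedPermInvariant K) {x : E n} (hx : x ∈ K) :
    -x ∈ K := by
  have h := hs (Equiv.refl _) (fun _ => -1) (fun _ => Or.inr rfl) x hx
  have e : sp (Equiv.refl (Fin n)) (fun _ => -1) x = -x := by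
    ext i
    simp [sp]
  rwa [e] at h

/-- A symmetric body contains the origin. PROOF: `x` and `-x` are in `K`. -/
theorem zero_mem_of_sym {n : ℕ} {K : Set (E n)} (hK : ConvexDomain K) (hs : SignedPermInvariant K) :
    (0 : E n) ∈ K := by
  obtain ⟨x, hx⟩ := hK.1
  have hx' := neg_mem_of_sym hs hx
  have h := hK.2.2.2 hx hx' (show (0 : ℝ) ≤ 1 / 2 by norm_num) (show (0 : ℝ) ≤ 1 / 2 by norm_num) (by norm_num)
  have e : (1 / 2 : ℝ) • x + (1 / 2 : ℝ) • (-x) = 0 := by
    rw [smul_neg, add_neg_cancel]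
  rwa [e] at h

private theorem symApprox_sep {n : ℕ} {Ω : Set (E n)} (hΩ : ConvexDomain Ω) (h0 : (0 : E n) ∈ Ω)
    {x : E n} (hx : x ∈ frontier Ω) :
    ∃ a : E n, (∀ y ∈ Ω, (inner ℝ a y : ℝ) < 1) ∧ 1 ≤ (inner ℝ a x : ℝ) := by
  have hxn : x ∉ Ω := by
    intro h
    rw [hΩ.2.2.1.frontier_eq] at hx
    exact hx.2 h
  obtain ⟨f, hf⟩ := geometric_hahn_banach_open_point hΩ.2.2.2 hΩ.2.2.1 hxn
  have hfx : 0 < f x := by
    have := hf 0 h0
    rwa [map_zero] at this
  have hin : ∀ y : E n, (inner ℝ ((f x)⁻¹ • (InnerProductSpace.toDual ℝ (E n)).symm f) y : ℝ) =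
      (f x)⁻¹ * f y := by
    intro y
    rw [real_inner_smul_left, InnerProductSpace.toDual_symm_apply]
  refine ⟨(f x)⁻¹ • (InnerProductSpace.toDual ℝ (E n)).symm f, fun y hy => ?_, ?_⟩
  · rw [hin, inv_mul_lt_iff₀ hfx, mul_one]
    exact hf y hy
  · rw [hin, inv_mul_cancel₀ hfx.ne']

/-- The signs. -/
private noncomputable def symApprox_sg {n : ℕ} (b : Fin n → Bool) (i : Fin n) : ℝ := if b i then 1 else -1

private theorem symApprox_sg_or {n : ℕ} (b : Fin n → Bool) (i : Fin n) :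
    symApprox_sg b i = 1 ∨ symApprox_sg b i = -1 := by
  unfold symApprox_sg
  split_ifs
  · exact Or.inl rfl
  · exact Or.inr rfl

private theorem symApprox_sg_ex {n : ℕ} {e : Fin n → ℝ} (he : ∀ i, e i = 1 ∨ e i = -1) :
    ∃ b : Fin n → Bool, symApprox_sg b = e := by
  classical
  refine ⟨fun i => decide (e i = 1), ?_⟩
  funext i
  unfold symApprox_sg
  rcases he i with h | h
  · simp [h]
  · have h' : ¬ (e i = 1) := by
      rw [h]
      norm_num
    simp only [h', decide_false, Bool.false_eq_true, if_false]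
    exact h.symm

private theorem symApprox_inner {n : ℕ} (σ : Equiv.Perm (Fin n)) (e : Fin n → ℝ) (s x : E n) :
    (inner ℝ (sp σ e s) x : ℝ) = inner ℝ s (sp σ.symm (fun j => e (σ.symm j)) x) := by
  rw [PiLp.inner_apply, PiLp.inner_apply]
  have h1 : ∀ i, (inner ℝ ((sp σ e s) i) (x i) : ℝ) = e i * s (σ i) * x i := by
    intro i
    simp [sp]
    ring
  have h2 : ∀ j, (inner ℝ (s j) ((sp σ.symm (fun j => e (σ.symm j)) x) j) : ℝ) =
      e (σ.symm j) * s (σ (σ.symm j)) * x (σ.symm j) := by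
    intro j
    simp [sp]
    ring
  simp only [h1, h2]
  exact (Equiv.sum_comp σ.symm fun i => e i * s (σ i) * x i).symm

/-- PROOF: `exists_poly` with `A = {a | ∀ y ∈ K, ⟨a, y⟩ < 1}` (see `bd_le` in Upper.lean for the separation) gives `S`;
take `S'` = the union of the images `S.image (sp σ e)` over the finitely many signed permutations (`A` is invariant:
`⟨sp σ e a, y⟩ = ⟨a, sp σ⁻¹ e' y⟩`); a larger set gives a smaller polyhedron. -/
theorem exists_sym_poly {n : ℕ} {K : Set (E n)} (hK : ConvexDomain K) (hs : SignedPermInvariant K) {ε : ℝ}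
    (hε : 0 < ε) : ∃ S : Finset (E n), SymF S ∧ K ⊆ poly S ∧ poly S ⊆ (1 + ε) • K := by
  classical
  have h0 := zero_mem_of_sym hK hs
  obtain ⟨S, hSA, _, hS2⟩ := exists_poly hK h0 (A := {a | ∀ y ∈ K, (inner ℝ a y : ℝ) < 1})
    (fun a ha => ha) (fun x hx => symApprox_sep hK h0 hx) hε
  refine ⟨Finset.univ.biUnion fun p : Equiv.Perm (Fin n) × (Fin n → Bool) => S.image (sp p.1 (symApprox_sg p.2)),
    ?_, ?_, ?_⟩
  · intro σ e he a ha
    rw [Finset.mem_biUnion] at ha ⊢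
    obtain ⟨⟨σ', b'⟩, _, ha⟩ := ha
    rw [Finset.mem_image] at ha
    obtain ⟨s, hsS, rfl⟩ := ha
    have he' : ∀ i, e i * symApprox_sg b' (σ i) = 1 ∨ e i * symApprox_sg b' (σ i) = -1 := by
      intro i
      rcases he i with h | h <;> rcases symApprox_sg_or b' (σ i) with h' | h' <;> rw [h, h'] <;> norm_num
    obtain ⟨b'', hb''⟩ := symApprox_sg_ex he'
    refine ⟨(σ.trans σ', b''), Finset.mem_univ _, ?_⟩
    rw [Finset.mem_image]
    refine ⟨s, hsS, ?_⟩
    ext i
    rw [hb'']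
    simp [sp, mul_assoc]
  · intro x hx a ha
    rw [Finset.mem_biUnion] at ha
    obtain ⟨⟨σ, b⟩, _, ha⟩ := ha
    rw [Finset.mem_image] at ha
    obtain ⟨s, hsS, rfl⟩ := ha
    rw [symApprox_inner]
    exact hSA s hsS _ (hs _ _ (fun i => symApprox_sg_or b _) x hx)
  · refine Subset.trans ?_ hS2
    intro x hx a ha
    apply hx
    rw [Finset.mem_biUnion]
    refine ⟨(Equiv.refl _, fun _ => true), Finset.mem_univ _, ?_⟩
    rw [Finset.mem_image]
    refine ⟨a, ha, ?_⟩
    ext i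
    simp [sp, symApprox_sg]

end BM939
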