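import Pool.Agent.Lib.MP_939ffc_anD.Defs


open MeasureTheory Set Metric Filter Topology
open scoped ENNReal NNReal Pointwise
open Pool.Agent.Lib.MP_deb14e_an Pool.Agent.MPdeb14eM

namespace BM939

private theorem sumL_sw_sw {n : ℕ} (i j : Fin n) (a : E n) : sw i j (sw i j a) = a := by
  ext k
  change a (Equiv.swap i j (Equiv.swap i j k)) = a k
  rw [Equiv.swap_apply_self]

private theorem sumL_norm_sw {n : ℕ} (i j : Fin n) (a : E n) : ‖sw i j a‖ = ‖a‖ := by
  have h : ‖sw i j a‖ ^ 2 = ‖a‖ ^ 2 := by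
    rw [EuclideanSpace.norm_sq_eq, EuclideanSpace.norm_sq_eq]
    exact Equiv.sum_comp (Equiv.swap i j) fun k => ‖a k‖ ^ 2
  exact (sq_eq_sq₀ (norm_nonneg _) (norm_nonneg _)).1 h

private theorem sumL_cs {n : ℕ} {b : Fin n → ℝ} (a : E n) :
    ∑ i, b i * (a i ^ 2 / ‖a‖) ≤ ‖dg b a‖ := by
  rcases eq_or_ne a 0 with h0 | h0
  · subst h0
    simp only [norm_zero, div_zero, mul_zero, Finset.sum_const_zero]
    exact norm_nonneg _
  · have hn : 0 < ‖a‖ := norm_pos_iff.2 h0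
    have h1 : inner ℝ a (dg b a) = ∑ i, b i * a i ^ 2 := by
      rw [PiLp.inner_apply]
      refine Finset.sum_congr rfl fun i _ => ?_
      change inner ℝ (a i) (b i * a i) = _
      simp only [RCLike.inner_apply, conj_trivial]
      ring
    have h2 := real_inner_le_norm a (dg b a)
    rw [h1] at h2
    have h3 : ∑ i, b i * (a i ^ 2 / ‖a‖) = (∑ i, b i * a i ^ 2) / ‖a‖ := by
      rw [Finset.sum_div]
      exact Finset.sum_congr rfl fun i _ => by ring
    rw [h3, div_le_iff₀ hn]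
    linarith

/-- PROOF: for `a ∈ S`, Cauchy-Schwarz gives `‖dg b a‖ * ‖a‖ ≥ ∑ b i * a i ^ 2`, so (for `a ≠ 0`)
`‖dg b a‖ ≥ ∑ b i * (a i ^ 2 / ‖a‖)`; and `∑ a ∈ S, a i ^ 2 / ‖a‖ * V a` does not depend on `i` (reindex by `sw i j`,
an involution of `S` which keeps the norm and `V`), and the sum over `i` is `∑ ‖a‖ * V a`. -/
theorem sum_lower {n : ℕ} (hn : 0 < n) (S : Finset (E n)) (hS : ∀ i j, ∀ a ∈ S, sw i j a ∈ S)
    {b : Fin n → ℝ} (hb : ∀ i, 0 < b i) {V : E n → ℝ} (hV : ∀ a ∈ S, 0 ≤ V a)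
    (hVs : ∀ i j, ∀ a ∈ S, V (sw i j a) = V a) :
    (∑ i, b i) / n * ∑ a ∈ S, ‖a‖ * V a ≤ ∑ a ∈ S, ‖dg b a‖ * V a := by
  have hn' : (0 : ℝ) < n := by exact_mod_cast hn
  set G : Fin n → ℝ := fun i => ∑ a ∈ S, a i ^ 2 / ‖a‖ * V a with hG
  have hGG : ∀ i j, G i = G j := by
    intro i j
    simp only [hG]
    refine Finset.sum_nbij' (fun a => sw i j a) (fun a => sw i j a) (fun a ha => hS i j a ha)
      (fun a ha => hS i j a ha) (fun a _ => sumL_sw_sw i j a) (fun a _ => sumL_sw_sw i j a) ?_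
    intro a ha
    rw [sumL_norm_sw, hVs i j a ha]
    have h1 : (sw i j a) j = a i := by
      change a (Equiv.swap i j j) = a i
      rw [Equiv.swap_apply_right]
    rw [h1]
  have hGs : ∑ i, G i = ∑ a ∈ S, ‖a‖ * V a := by
    simp only [hG]
    rw [Finset.sum_comm]
    refine Finset.sum_congr rfl fun a _ => ?_
    rw [← Finset.sum_mul, ← Finset.sum_div]
    have h1 : ∑ i, a i ^ 2 = ‖a‖ ^ 2 := by
      rw [EuclideanSpace.norm_sq_eq]
      exact Finset.sum_congr rfl fun i _ => by rw [Real.norm_eq_abs, sq_abs]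
    rw [h1]
    rcases eq_or_ne ‖a‖ 0 with h0 | h0
    · rw [h0]
      simp
    · rw [sq, mul_div_assoc, div_self h0, mul_one]
  have hGi : ∀ i, G i = (∑ a ∈ S, ‖a‖ * V a) / n := by
    intro i
    have h1 : ∑ j, G j = n * G i := by
      rw [Finset.sum_congr rfl fun j _ => hGG j i, Finset.sum_const, Finset.card_univ,
        Fintype.card_fin, nsmul_eq_mul]
    rw [← hGs, h1, mul_div_assoc, mul_comm, div_mul_cancel₀ _ hn'.ne']
  calc (∑ i, b i) / n * ∑ a ∈ S, ‖a‖ * V a = ∑ i, b i * G i := by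
        have h1 : ∑ i, b i * G i = ∑ i, b i * ((∑ a ∈ S, ‖a‖ * V a) / n) :=
          Finset.sum_congr rfl fun i _ => by rw [hGi i]
        rw [h1, ← Finset.sum_mul]
        ring
    _ = ∑ a ∈ S, (∑ i, b i * (a i ^ 2 / ‖a‖)) * V a := by
        simp only [hG, Finset.mul_sum, Finset.sum_mul]
        rw [Finset.sum_comm]
        exact Finset.sum_congr rfl fun a _ => Finset.sum_congr rfl fun i _ => by ring
    _ ≤ ∑ a ∈ S, ‖dg b a‖ * V a :=
        Finset.sum_le_sum fun a ha => mul_le_mul_of_nonneg_right (sumL_cs a) (hV a ha)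

end BM939
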