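import Pool.Agent.Lib.MP_939ffc_anD.Defs
import Pool.Agent.Lib.MP_939ffc_anD.PolyU
import Pool.Agent.Lib.MP_939ffc_anD.PolyL
import Pool.Agent.Lib.MP_939ffc_anD.Dil
import Pool.Agent.Lib.MP_939ffc_anD.DilVol
import Pool.Agent.Lib.MP_939ffc_anD.SumL
import Pool.Agent.Lib.MP_939ffc_anD.SymCone

open MeasureTheory Set Metric Filter Topology
open scoped ENNReal NNReal Pointwise
open Pool.Agent.Lib.MP_deb14e_an Pool.Agent.MPdeb14eM

namespace BM939

private theorem polyP_kap (m : ℕ) : 0 ≤ kap m :=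
  div_nonneg ENNReal.toReal_nonneg ENNReal.toReal_nonneg

private theorem polyP_mom {n : ℕ} (s : Set (E n)) : mom 0 s = volume s := by
  change ∫⁻ x in s, ENNReal.ofReal (‖x‖ ^ 0) = _
  simp only [pow_zero, ENNReal.ofReal_one, lintegral_one, Measure.restrict_apply_univ]

theorem polyP {m : ℕ} {S : Finset (E (m + 1))} (hS : SymF S) (hb : Bornology.IsBounded (poly S))
    {α : Fin (m + 1) → ℝ} (hα : ∀ i, 0 < α i) :
    ENNReal.ofReal ((∏ i, α i) * mb α) * bd 0 (poly S) ≤ bd 0 (dil α (poly S)) := by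
  obtain ⟨κ, hκdef⟩ : ∃ κ : ℝ, κ = kap m * ((m : ℝ) + 1 + ((0 : ℕ) : ℝ)) := ⟨_, rfl⟩
  have hκ : 0 ≤ κ := by
    rw [hκdef]
    exact mul_nonneg (polyP_kap m) (by positivity)
  obtain ⟨P, hPdef⟩ : ∃ P : ℝ, P = ∏ i, α i := ⟨_, rfl⟩
  have hP : 0 ≤ P := by
    rw [hPdef]
    exact Finset.prod_nonneg fun i _ => (hα i).le
  have hsw : ∀ i j, ∀ a ∈ S, sw i j a ∈ S := fun i j a ha => sw_mem hS i j ha
  have hfin : ∀ a ∈ S, volume (coneOn (facet S a)) ≠ ⊤ := fun a ha =>
    ne_of_lt (lt_of_le_of_lt (measure_mono (coneOn_facet_subset ha)) hb.measure_lt_top)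
  have hl := sum_lower (Nat.succ_pos m) S hsw (b := fun i => (α i)⁻¹)
    (fun i => inv_pos.2 (hα i)) (V := fun a => (volume (coneOn (facet S a))).toReal)
    (fun a _ => ENNReal.toReal_nonneg)
    (fun i j a _ => by
      change (volume (coneOn (facet S (sw i j a)))).toReal = (volume (coneOn (facet S a))).toReal
      rw [vol_sw hS i j a])
  have hmb : (∑ i, (fun i => (α i)⁻¹) i) / ((m + 1 : ℕ) : ℝ) = mb α := rfl
  rw [hmb] at hl
  have hmb0 : 0 ≤ mb α := div_nonneg (Finset.sum_nonneg fun i _ => (inv_pos.2 (hα i)).le)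
    (Nat.cast_nonneg _)
  have hterm : ∀ a ∈ S, mom 0 (coneOn (facet S a)) =
      ENNReal.ofReal (volume (coneOn (facet S a))).toReal := by
    intro a ha
    rw [polyP_mom, ENNReal.ofReal_toReal (hfin a ha)]
  have hterm' : ∀ a ∈ S, mom 0 (dil α (coneOn (facet S a))) =
      ENNReal.ofReal (P * (volume (coneOn (facet S a))).toReal) := by
    intro a ha
    change ∫⁻ x in dil α (coneOn (facet S a)), ENNReal.ofReal (‖x‖ ^ 0) = _
    rw [lintegral_dil hα (measurableSet_coneOn_facet S a) (f := fun x => ENNReal.ofReal (‖x‖ ^ 0))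
      (ENNReal.measurable_ofReal.comp (measurable_norm.pow_const 0)), ENNReal.ofReal_mul hP,
      ← hPdef, ENNReal.ofReal_toReal (hfin a ha)]
    congr 1
    simp only [pow_zero, ENNReal.ofReal_one, lintegral_one, Measure.restrict_apply_univ]
  rw [dil_poly hα S]
  calc ENNReal.ofReal ((∏ i, α i) * mb α) * bd 0 (poly S)
      ≤ ENNReal.ofReal (P * mb α) *
          ∑ a ∈ S, ENNReal.ofReal (κ * ‖a‖) * mom 0 (coneOn (facet S a)) := by
        rw [← hPdef, hκdef]
        exact mul_le_mul_right (bd_poly_le_sum S) _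
    _ = ENNReal.ofReal (κ * P * (mb α * ∑ a ∈ S, ‖a‖ * (volume (coneOn (facet S a))).toReal)) := by
        have h1 : ∑ a ∈ S, ENNReal.ofReal (κ * ‖a‖) * mom 0 (coneOn (facet S a)) =
            ENNReal.ofReal (κ * ∑ a ∈ S, ‖a‖ * (volume (coneOn (facet S a))).toReal) := by
          rw [Finset.mul_sum, ENNReal.ofReal_sum_of_nonneg]
          · refine Finset.sum_congr rfl fun a ha => ?_
            rw [hterm a ha, ← ENNReal.ofReal_mul (mul_nonneg hκ (norm_nonneg _))]
            congr 1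
            ring
          · intro a _
            exact mul_nonneg hκ (mul_nonneg (norm_nonneg _) ENNReal.toReal_nonneg)
        rw [h1, ← ENNReal.ofReal_mul (mul_nonneg hP hmb0)]
        congr 1
        ring
    _ ≤ ENNReal.ofReal (κ * P * ∑ a ∈ S, ‖dg (fun i => (α i)⁻¹) a‖ *
          (volume (coneOn (facet S a))).toReal) :=
        ENNReal.ofReal_le_ofReal (mul_le_mul_of_nonneg_left hl (mul_nonneg hκ hP))
    _ = ∑ a ∈ S, ENNReal.ofReal (κ * P * (‖dg (fun i => (α i)⁻¹) a‖ *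
          (volume (coneOn (facet S a))).toReal)) := by
        rw [Finset.mul_sum, ENNReal.ofReal_sum_of_nonneg]
        intro a _
        exact mul_nonneg (mul_nonneg hκ hP) (mul_nonneg (norm_nonneg _) ENNReal.toReal_nonneg)
    _ = ∑ a ∈ S.map (dgE (fun i => (α i)⁻¹) fun i => inv_pos.2 (hα i)),
          ENNReal.ofReal (κ * ‖a‖) *
            mom 0 (coneOn (facet (S.map (dgE (fun i => (α i)⁻¹) fun i => inv_pos.2 (hα i))) a)) := by
        rw [Finset.sum_map]
        refine Finset.sum_congr rfl fun a ha => ?_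
        change _ = ENNReal.ofReal (κ * ‖dg (fun i => (α i)⁻¹) a‖) *
          mom 0 (coneOn (facet _ (dg (fun i => (α i)⁻¹) a)))
        rw [coneOn_facet_dil hα S a, hterm' a ha,
          ← ENNReal.ofReal_mul (mul_nonneg hκ (norm_nonneg _))]
        congr 1
        ring
    _ ≤ bd 0 (poly (S.map (dgE (fun i => (α i)⁻¹) fun i => inv_pos.2 (hα i)))) := by
        rw [hκdef]
        exact sum_le_bd_poly _

end BM939
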