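import Pool.Agent.Lib.MP_939ffc_anD.Defs
import Pool.Agent.Lib.MP_939ffc_anD.PolyP
import Pool.Agent.Lib.MP_939ffc_anD.SymApprox
import Pool.Agent.Lib.MP_939ffc_anD.DilDom

open MeasureTheory Set Metric Filter Topology
open scoped ENNReal NNReal Pointwise
open Pool.Agent.Lib.MP_deb14e_an Pool.Agent.MPdeb14eM

namespace BM939

/-- PROOF: for every `ε > 0`, with `S` of `exists_sym_poly`: `bd 0 K ≤ bd 0 (poly S)` (`bd_mono`), `polyP`,
`bd 0 (dil α (poly S)) ≤ bd 0 ((1 + ε) • dil α K) = (1 + ε) ^ m * bd 0 (dil α K)` (`bd_mono`, `dil_smul`, `bd_smul`);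
`ε → 0` as in `le_bd` (Lower.lean). -/
theorem genP {m : ℕ} {K : Set (E (m + 1))} (hK : ConvexDomain K) (hs : SignedPermInvariant K)
    {α : Fin (m + 1) → ℝ} (hα : ∀ i, 0 < α i) :
    ENNReal.ofReal ((∏ i, α i) * mb α) * bd 0 K ≤ bd 0 (dil α K) := by
  have h0 : (0 : E (m + 1)) ∈ K := zero_mem_of_sym hK hs
  have key : ∀ ε : ℝ, 0 < ε → ENNReal.ofReal ((∏ i, α i) * mb α) * bd 0 K ≤
      ENNReal.ofReal ((1 + ε) ^ (m + 0)) * bd 0 (dil α K) := by
    intro ε hε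
    have hc : (0 : ℝ) < 1 + ε := by linarith
    obtain ⟨S, hSs, hS1, hS2⟩ := exists_sym_poly hK hs hε
    have hK2 : ConvexDomain ((1 + ε) • K) :=
      ⟨hK.1.smul_set, hK.2.1.smul₀ (1 + ε), hK.2.2.1.smul₀ hc.ne', hK.2.2.2.smul (1 + ε)⟩
    have hpoly : ConvexDomain (poly S) :=
      ⟨⟨0, zero_mem_poly S⟩, hK2.2.1.subset hS2, isOpen_poly S, convex_poly S⟩
    have h0d : (0 : E (m + 1)) ∈ dil α (poly S) := by
      refine ⟨0, zero_mem_poly S, ?_⟩
      ext i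
      simp [dg]
    calc ENNReal.ofReal ((∏ i, α i) * mb α) * bd 0 K
        ≤ ENNReal.ofReal ((∏ i, α i) * mb α) * bd 0 (poly S) := by
          gcongr
          exact bd_mono hK hpoly h0 hS1
      _ ≤ bd 0 (dil α (poly S)) := polyP hSs hpoly.2.1 hα
      _ ≤ bd 0 (dil α ((1 + ε) • K)) :=
          bd_mono (convexDomain_dil hα hpoly) (convexDomain_dil hα hK2) h0d (dil_mono α hS2)
      _ = _ := by rw [dil_smul, bd_smul _ hc]
  have hlim : Tendsto (fun k : ℕ => ENNReal.ofReal ((1 + 1 / ((k : ℝ) + 1)) ^ (m + 0)) *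
      bd 0 (dil α K)) atTop (𝓝 (bd 0 (dil α K))) := by
    have h1 : Tendsto (fun k : ℕ => ENNReal.ofReal ((1 + 1 / ((k : ℝ) + 1)) ^ (m + 0))) atTop
        (𝓝 1) := by
      have h2 : Tendsto (fun k : ℕ => (1 + 1 / ((k : ℝ) + 1)) ^ (m + 0)) atTop (𝓝 1) := by
        have h3 := (tendsto_one_div_add_atTop_nhds_zero_nat (𝕜 := ℝ)).const_add 1
        have h4 := h3.pow (m + 0)
        simp only [add_zero, one_pow] at h4 ⊢
        exact h4
      have h5 := (ENNReal.continuous_ofReal.tendsto 1).comp h2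
      rw [ENNReal.ofReal_one] at h5
      exact h5
    have h6 := ENNReal.Tendsto.mul_const h1 (b := bd 0 (dil α K)) (Or.inl one_ne_zero)
    rwa [one_mul] at h6
  exact ge_of_tendsto hlim (Eventually.of_forall fun k => key _ (by positivity))

end BM939
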