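import Pool.Agent.Lib.MP_939ffc_anD.Ineq3
import Pool.Agent.Lib.MP_939ffc_anD.Defs

/-!
# MP_939ffc_an: the inequality of the diagonal maps
-/

namespace BM939

/-- The identity linking `phi` and the two sides of the inequality. -/
theorem star_key {n : ℕ} (hn : 3 ≤ n) {α : Fin n → ℝ} (hα : ∀ i, 0 < α i) :
    0 < mb α ∧ (∑ i, (α i)⁻¹ / mb α = n) ∧
      phi (fun i => (α i)⁻¹ / mb α) * ((∏ i, α i) ^ n * mb α ^ (n ^ 2 - 1)) ^ 2 =
        (n : ℝ) ^ 3 * (ma α * mq α) ^ 2 := by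
  have hn0 : (0 : ℝ) < n := by
    have : 0 < n := by omega
    exact_mod_cast this
  have : Nonempty (Fin n) := ⟨⟨0, by omega⟩⟩
  have hsum : 0 < ∑ i, (α i)⁻¹ := Finset.sum_pos (fun i _ => inv_pos.2 (hα i)) Finset.univ_nonempty
  have hx : 0 < mb α := div_pos hsum hn0
  have hP : 0 < ∏ i, α i := Finset.prod_pos fun i _ => hα i
  refine ⟨hx, ?_, ?_⟩
  · rw [← Finset.sum_div]
    have h1 : mb α * n = ∑ i, (α i)⁻¹ := by
      unfold mb
      field_simp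
    rw [← h1]
    field_simp
  · have hprod : (∏ i, (α i)⁻¹ / mb α) = (∏ i, α i)⁻¹ / mb α ^ n := by
      rw [Finset.prod_div_distrib, Finset.prod_inv_distrib, Finset.prod_const, Finset.card_univ,
        Fintype.card_fin]
    have hs1 : (∑ i, ((α i)⁻¹ / mb α)⁻¹ ^ 2) = mb α ^ 2 * ∑ i, α i ^ 2 := by
      rw [Finset.mul_sum]
      refine Finset.sum_congr rfl fun i _ => ?_
      have := (hα i).ne'
      field_simp
    have hs2 : (∑ i, ((α i)⁻¹ / mb α) ^ 2) = (∑ i, (α i)⁻¹ ^ 2) / mb α ^ 2 := by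
      rw [Finset.sum_div]
      refine Finset.sum_congr rfl fun i _ => ?_
      rw [div_pow]
    have hq : mq α ^ 2 = (∑ i, (α i)⁻¹ ^ 2) / n := by
      unfold mq
      rw [Real.sq_sqrt]
      positivity
    unfold phi
    simp only
    rw [hprod, hs1, hs2, mul_pow (ma α) (mq α) 2, hq]
    unfold ma
    set x := mb α with hxdef
    set P := ∏ i, α i with hPdef
    set A := ∑ i, α i ^ 2 with hA
    set B := ∑ i, (α i)⁻¹ ^ 2 with hB
    obtain ⟨m, hm⟩ : ∃ m, n ^ 2 = m + 1 := ⟨n ^ 2 - 1, by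
      have : 0 < n ^ 2 := by positivity
      omega⟩
    have e1 : n ^ 2 - 1 = m := by omega
    rw [e1]
    have e2 : (P⁻¹ / x ^ n) ^ (2 * n) = (P ^ (2 * n))⁻¹ / x ^ (2 * (m + 1)) := by
      rw [div_pow, inv_pow, ← pow_mul]
      congr 2
      rw [← hm]; ring
    have e3 : (P ^ n * x ^ m) ^ 2 = P ^ (2 * n) * x ^ (2 * m) := by
      rw [mul_pow, ← pow_mul, ← pow_mul]
      congr 2 <;> ring
    rw [e2, e3]
    have hP2 : P ^ (2 * n) ≠ 0 := (pow_pos hP _).ne'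
    have hxm : x ^ (2 * m) ≠ 0 := (pow_pos hx _).ne'
    have e4 : x ^ (2 * (m + 1)) = x ^ (2 * m) * x ^ 2 := by ring
    rw [e4]
    have hx0 : x ≠ 0 := hx.ne'
    generalize P ^ (2 * n) = Q at hP2 ⊢
    generalize x ^ (2 * m) = R at hxm ⊢
    field_simp

/-- PROOF: with `b = α⁻¹`, `x = mb α` the mean of `b` and `z = b / x`, `phi_le` for `z` is the square of the claim:
`(∏ b) ^ n * mean (b ^ (-2)) * √ (mean (b ^ 2)) ≤ (mean b) ^ (n ^ 2 - 1)`. -/
theorem star_le {n : ℕ} (hn : 3 ≤ n) {α : Fin n → ℝ} (hα : ∀ i, 0 < α i) :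
    ma α * mq α ≤ (∏ i, α i) ^ n * mb α ^ (n ^ 2 - 1) := by
  obtain ⟨hx, hs, hk⟩ := star_key hn hα
  have hn0 : (0 : ℝ) < n := by
    have : 0 < n := by omega
    exact_mod_cast this
  have hP : 0 < ∏ i, α i := Finset.prod_pos fun i _ => hα i
  have hR : 0 ≤ (∏ i, α i) ^ n * mb α ^ (n ^ 2 - 1) := by positivity
  have h1 := (phi_le hn (z := fun i => (α i)⁻¹ / mb α) (fun i => div_pos (inv_pos.2 (hα i)) hx) hs).1
  refine le_of_sq_le_sq ?_ hR
  have h2 : (n : ℝ) ^ 3 * (ma α * mq α) ^ 2 ≤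
      (n : ℝ) ^ 3 * ((∏ i, α i) ^ n * mb α ^ (n ^ 2 - 1)) ^ 2 := by
    rw [← hk]
    exact mul_le_mul_of_nonneg_right h1 (by positivity)
  exact le_of_mul_le_mul_left h2 (by positivity)

theorem star_lt {n : ℕ} (hn : 3 ≤ n) {α : Fin n → ℝ} (hα : ∀ i, 0 < α i) (hne : ¬ ∀ i j, α i = α j) :
    ma α * mq α < (∏ i, α i) ^ n * mb α ^ (n ^ 2 - 1) := by
  refine lt_of_le_of_ne (star_le hn hα) fun he => hne ?_
  obtain ⟨hx, hs, hk⟩ := star_key hn hα
  have hP : 0 < ∏ i, α i := Finset.prod_pos fun i _ => hα i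
  have hR : 0 < (∏ i, α i) ^ n * mb α ^ (n ^ 2 - 1) := by positivity
  have h1 := (phi_le hn (z := fun i => (α i)⁻¹ / mb α) (fun i => div_pos (inv_pos.2 (hα i)) hx) hs).2
  rw [he] at hk
  have h2 := h1 (mul_right_cancel₀ (pow_pos hR 2).ne' hk)
  have h3 : ∀ i, α i = (mb α)⁻¹ := by
    intro i
    have h4 : (α i)⁻¹ / mb α = 1 := h2 i
    have h5 := (hα i).ne'
    have h6 : (α i)⁻¹ = mb α := by
      rw [div_eq_one_iff_eq hx.ne'] at h4
      exact h4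
    rw [← h6, inv_inv]
  intro i j
  rw [h3 i, h3 j]

end BM939
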