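import Mathlib

/-!
# MP_939ffc_an: the inequality of the diagonal maps: two variables
-/

namespace BM939

/-- The functional of the inequality, for positive `z` (`n = Fintype.card`). -/
noncomputable def phi {n : ℕ} (z : Fin n → ℝ) : ℝ :=
  (∏ i, z i) ^ (2 * n) * (∑ i, (z i)⁻¹ ^ 2) ^ 2 * ∑ i, z i ^ 2

private theorem Ineq1_key {A B C w : ℝ} (hA : 0 < A) (hB : 0 < B) (hAB : 1 ≤ A * B) (hw : 0 < w)
    (hwC : w < C) :
    (w * (A * w ^ 2 + (4 * C - 2 * w))) ^ 2 * (B + (4 * C - 2 * w)) <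
      (C * (A * C ^ 2 + 2 * C)) ^ 2 * (B + 2 * C) := by
  have hC : 0 < C := hw.trans hwC
  have hd : 0 < C - w := by linarith
  set f := w * (A * w ^ 2 + (4 * C - 2 * w)) with hf
  set F := C * (A * C ^ 2 + 2 * C) with hF
  set G := A * (C ^ 2 + C * w + w ^ 2) + 2 * (C - w) with hG
  have hf0 : 0 < f := by
    rw [hf]
    have h1 : 0 < A * w ^ 2 := by positivity
    have h2 : 0 < A * w ^ 2 + (4 * C - 2 * w) := by linarith
    exact mul_pos hw h2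
  have hFf : F - f = (C - w) * G := by
    rw [hF, hf, hG]
    ring
  have hS : 0 < C ^ 2 + C * w + w ^ 2 := by positivity
  have hG0 : 0 < G := by
    rw [hG]
    have h1 := mul_pos hA hS
    linarith
  have hlt : f < F := by
    have h1 := mul_pos hd hG0
    linarith
  have hquad : 0 < 5 * C ^ 2 - 7 * (C * w) + 3 * w ^ 2 := by
    nlinarith [sq_nonneg (10 * C - 7 * w), sq_nonneg w, pow_pos hw 2]
  have hcub : 0 ≤ 2 * C * (C ^ 2 + C * w + w ^ 2) - w ^ 3 := by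
    have h1 : w * w ^ 2 ≤ C * w ^ 2 := mul_le_mul_of_nonneg_right hwC.le (sq_nonneg w)
    have h2 : 0 ≤ C * (C ^ 2 + C * w + w ^ 2) := by positivity
    have h3 : C * w ^ 2 ≤ C * (C ^ 2 + C * w + w ^ 2) := by
      refine mul_le_mul_of_nonneg_left ?_ hC.le
      have h4 : 0 < C ^ 2 + C * w := by positivity
      linarith
    have h5 : w ^ 3 = w * w ^ 2 := by ring
    linarith
  have hmain : f < G * (B + 2 * C) := by
    have h1 : (C ^ 2 + C * w + w ^ 2) ≤ A * B * (C ^ 2 + C * w + w ^ 2) := by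
      have := mul_le_mul_of_nonneg_right hAB hS.le
      linarith
    have h2 : 0 ≤ A * (2 * C * (C ^ 2 + C * w + w ^ 2) - w ^ 3) := mul_nonneg hA.le hcub
    have h3 : 0 < 2 * (C - w) * B := by positivity
    have e1 : G * (B + 2 * C) = A * B * (C ^ 2 + C * w + w ^ 2) +
        A * (2 * C * (C ^ 2 + C * w + w ^ 2)) + 2 * (C - w) * B + 4 * C * (C - w) := by
      rw [hG]
      ring
    have e2 : f = A * w ^ 3 + 4 * (C * w) - 2 * w ^ 2 := by
      rw [hf]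
      ring
    rw [e1, e2]
    nlinarith [h1, h2, h3, hquad]
  have h6 : 2 * f ^ 2 * (C - w) < (F ^ 2 - f ^ 2) * (B + 2 * C) := by
    have hBC : 0 < B + 2 * C := by positivity
    have h7 : (C - w) * G * (2 * f) * (B + 2 * C) ≤ (F ^ 2 - f ^ 2) * (B + 2 * C) := by
      refine mul_le_mul_of_nonneg_right ?_ hBC.le
      have h8 : F ^ 2 - f ^ 2 = (C - w) * G * (F + f) := by
        rw [← hFf]
        ring
      rw [h8]
      exact mul_le_mul_of_nonneg_left (by linarith) (mul_pos hd hG0).le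
    have h9 : 2 * f * (C - w) * f < 2 * f * (C - w) * (G * (B + 2 * C)) :=
      mul_lt_mul_of_pos_left hmain (by positivity)
    calc 2 * f ^ 2 * (C - w) = 2 * f * (C - w) * f := by ring
      _ < 2 * f * (C - w) * (G * (B + 2 * C)) := h9
      _ = (C - w) * G * (2 * f) * (B + 2 * C) := by ring
      _ ≤ _ := h7
  have e3 : f ^ 2 * (B + (4 * C - 2 * w)) = f ^ 2 * (B + 2 * C) + 2 * f ^ 2 * (C - w) := by ring
  rw [e3]
  have e4 : (F ^ 2 - f ^ 2) * (B + 2 * C) = F ^ 2 * (B + 2 * C) - f ^ 2 * (B + 2 * C) := by ring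
  linarith

/-- Equalizing two variables increases `phi`. Here `P` is the product and `A`, `B` the sums of `z k ^ (-2)`, `z k ^ 2` over
the other `n - 2` variables, `P = 1` and `n - 2 = k ≥ 1`; for `k = 1` we have `A = P ^ (-2)`.
Let `c = (x + y) / 2`, `w = x * y < c ^ 2`. Then `phi` is `P ^ (2 n)` times
`g w = w ^ (2 n) * (A + (4 c ^ 2 - 2 w) / w ^ 2) ^ 2 * (B + 4 c ^ 2 - 2 w)`. CLAIM: `g` is strictly increasing on
`(0, c ^ 2]` when `B * A ≥ 1`, `n ≥ 3`, `A, B > 0`. PROOF: `g = w ^ (2 n - 4) * (A w ^ 2 + s) ^ 2 * (B + s)` with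
`s = 4 c ^ 2 - 2 w ≥ 2 w`; the logarithmic derivative is
`(2 n - 4) / w + 2 (2 A w - 2) / (A w ^ 2 + s) - 2 / (B + s)`. If `A w ≥ 1` the middle term is `≥ 0` and
`2 / (B + s) < 1 / w`. If `A w < 1`: `2 (2 - 2 A w) / (A w ^ 2 + s) ≤ 2 (2 - 2 A w) / (A w ^ 2 + 2 w)
= (1 / w) * (4 - 4 A w) / (A w + 2)`, and `2 / (B + s) ≤ 2 / (1 / A + 2 w) = (1 / w) * 2 A w / (1 + 2 A w)`; with
`t = A w ∈ (0, 1)`: `(4 - 4 t) / (t + 2) + 2 t / (1 + 2 t) < 2` since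
`(4 - 4 t) (1 + 2 t) + 2 t (t + 2) - 2 (t + 2) (1 + 2 t) = -10 t ^ 2 - 2 t < 0`. -/
theorem two_var {n : ℕ} (hn : 3 ≤ n) {A B x y : ℝ} (hA : 0 < A) (hB : 0 < B) (hAB : 1 ≤ A * B) (hx : 0 < x)
    (hy : 0 < y) (hxy : x ≠ y) :
    (x * y) ^ (2 * n) * (A + (x⁻¹ ^ 2 + y⁻¹ ^ 2)) ^ 2 * (B + (x ^ 2 + y ^ 2)) <
      (((x + y) / 2) * ((x + y) / 2)) ^ (2 * n) *
        (A + (((x + y) / 2)⁻¹ ^ 2 + ((x + y) / 2)⁻¹ ^ 2)) ^ 2 *
        (B + (((x + y) / 2) ^ 2 + ((x + y) / 2) ^ 2)) := by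
  have hw : 0 < x * y := mul_pos hx hy
  have hc : 0 < (x + y) / 2 := by positivity
  set w := x * y with hwd
  set c := (x + y) / 2 with hcd
  set C := c * c with hCd
  have hC : 0 < C := mul_pos hc hc
  have hwC : w < C := by
    have h1 : C - w = ((x - y) / 2) ^ 2 := by
      rw [hCd, hcd, hwd]
      ring
    have h2 : 0 < ((x - y) / 2) ^ 2 := by
      have h3 : (x - y) / 2 ≠ 0 := div_ne_zero (sub_ne_zero.2 hxy) two_ne_zero
      positivity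
    linarith
  have hs : x ^ 2 + y ^ 2 = 4 * C - 2 * w := by
    rw [hCd, hcd, hwd]
    ring
  have hi : x⁻¹ ^ 2 + y⁻¹ ^ 2 = (4 * C - 2 * w) / w ^ 2 := by
    rw [← hs, hwd]
    field_simp
    ring
  have hi2 : c⁻¹ ^ 2 + c⁻¹ ^ 2 = 2 / C := by
    rw [hCd]
    field_simp
    ring
  have hc2 : c ^ 2 + c ^ 2 = 2 * C := by
    rw [hCd]
    ring
  rw [hs, hi, hi2, hc2]
  obtain ⟨m, rfl⟩ : ∃ m, n = m + 3 := ⟨n - 3, by omega⟩
  have key := Ineq1_key hA hB hAB hw hwC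
  have e1 : w ^ (2 * (m + 3)) * (A + (4 * C - 2 * w) / w ^ 2) ^ 2 * (B + (4 * C - 2 * w)) =
      w ^ (2 * m) * ((w * (A * w ^ 2 + (4 * C - 2 * w))) ^ 2 * (B + (4 * C - 2 * w))) := by
    have h1 : w ^ (2 * (m + 3)) = w ^ (2 * m) * w ^ 6 := by
      rw [← pow_add]
      congr 1
    have h2 : w ^ 6 * (A + (4 * C - 2 * w) / w ^ 2) ^ 2 = (w * (A * w ^ 2 + (4 * C - 2 * w))) ^ 2 := by
      field_simp
    rw [h1, ← h2]
    ring
  have e2 : C ^ (2 * (m + 3)) * (A + 2 / C) ^ 2 * (B + 2 * C) =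
      C ^ (2 * m) * ((C * (A * C ^ 2 + 2 * C)) ^ 2 * (B + 2 * C)) := by
    have h1 : C ^ (2 * (m + 3)) = C ^ (2 * m) * C ^ 6 := by
      rw [← pow_add]
      congr 1
    have h2 : C ^ 6 * (A + 2 / C) ^ 2 = (C * (A * C ^ 2 + 2 * C)) ^ 2 := by
      field_simp
    rw [h1, ← h2]
    ring
  rw [e1, e2]
  have hf0 : 0 ≤ (w * (A * w ^ 2 + (4 * C - 2 * w))) ^ 2 * (B + (4 * C - 2 * w)) := by
    have h1 : 0 < B + (4 * C - 2 * w) := by linarith
    positivity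
  calc w ^ (2 * m) * ((w * (A * w ^ 2 + (4 * C - 2 * w))) ^ 2 * (B + (4 * C - 2 * w)))
      ≤ C ^ (2 * m) * ((w * (A * w ^ 2 + (4 * C - 2 * w))) ^ 2 * (B + (4 * C - 2 * w))) :=
        mul_le_mul_of_nonneg_right (pow_le_pow_left₀ hw.le hwC.le _) hf0
    _ < C ^ (2 * m) * ((C * (A * C ^ 2 + 2 * C)) ^ 2 * (B + 2 * C)) :=
        mul_lt_mul_of_pos_left key (pow_pos hC _)

end BM939
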