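import Pool.Agent.Lib.MP_939ffc_anD.Ineq1

/-!
# MP_939ffc_an: the inequality of the diagonal maps: equalizing
-/

namespace BM939

private theorem ineq2_phi {n : ℕ} {i j : Fin n} (hne : i ≠ j) (w : Fin n → ℝ) :
    phi w = (∏ k ∈ (Finset.univ.erase i).erase j, w k) ^ (2 * n) *
      ((w i * w j) ^ (2 * n) *
        ((∑ k ∈ (Finset.univ.erase i).erase j, (w k)⁻¹ ^ 2) + ((w i)⁻¹ ^ 2 + (w j)⁻¹ ^ 2)) ^ 2 *
        ((∑ k ∈ (Finset.univ.erase i).erase j, w k ^ 2) + (w i ^ 2 + w j ^ 2))) := by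
  have hi : i ∈ (Finset.univ : Finset (Fin n)) := Finset.mem_univ i
  have hj : j ∈ (Finset.univ : Finset (Fin n)).erase i :=
    Finset.mem_erase.2 ⟨hne.symm, Finset.mem_univ j⟩
  have h1 := Finset.mul_prod_erase (Finset.univ : Finset (Fin n)) w hi
  have h2 := Finset.mul_prod_erase ((Finset.univ : Finset (Fin n)).erase i) w hj
  have h3 := Finset.add_sum_erase (Finset.univ : Finset (Fin n)) (fun k => (w k)⁻¹ ^ 2) hi
  have h4 := Finset.add_sum_erase ((Finset.univ : Finset (Fin n)).erase i) (fun k => (w k)⁻¹ ^ 2) hj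
  have h5 := Finset.add_sum_erase (Finset.univ : Finset (Fin n)) (fun k => w k ^ 2) hi
  have h6 := Finset.add_sum_erase ((Finset.univ : Finset (Fin n)).erase i) (fun k => w k ^ 2) hj
  unfold phi
  rw [← h1, ← h2, ← h3, ← h4, ← h5, ← h6, mul_pow, mul_pow, mul_pow]
  ring

/-- PROOF: `two_var` with the product, `A` and `B` over the other `n - 2 ≥ 1` variables (`A * B ≥ 1` since for one of them
`z k ^ (-2) * z k ^ 2 = 1`). -/
theorem phi_lt {n : ℕ} (hn : 3 ≤ n) {z : Fin n → ℝ} (hz : ∀ i, 0 < z i) {i j : Fin n} (hij : z i ≠ z j) :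
    phi z < phi (Function.update (Function.update z i ((z i + z j) / 2)) j ((z i + z j) / 2)) := by
  have hne : i ≠ j := fun h => hij (by rw [h])
  set c := (z i + z j) / 2 with hc
  set z' := Function.update (Function.update z i c) j c with hz'
  have e1 : z' i = c := by
    rw [hz', Function.update_of_ne hne, Function.update_self]
  have e2 : z' j = c := by rw [hz', Function.update_self]
  have e3 : ∀ k ∈ ((Finset.univ : Finset (Fin n)).erase i).erase j, z' k = z k := by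
    intro k hk
    have h1 := Finset.mem_erase.1 hk
    have h2 := Finset.mem_erase.1 h1.2
    rw [hz', Function.update_of_ne h1.1, Function.update_of_ne h2.1]
  have p1 : ∏ k ∈ ((Finset.univ : Finset (Fin n)).erase i).erase j, z' k =
      ∏ k ∈ ((Finset.univ : Finset (Fin n)).erase i).erase j, z k :=
    Finset.prod_congr rfl fun k hk => e3 k hk
  have p2 : ∑ k ∈ ((Finset.univ : Finset (Fin n)).erase i).erase j, (z' k)⁻¹ ^ 2 =
      ∑ k ∈ ((Finset.univ : Finset (Fin n)).erase i).erase j, (z k)⁻¹ ^ 2 :=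
    Finset.sum_congr rfl fun k hk => by rw [e3 k hk]
  have p3 : ∑ k ∈ ((Finset.univ : Finset (Fin n)).erase i).erase j, z' k ^ 2 =
      ∑ k ∈ ((Finset.univ : Finset (Fin n)).erase i).erase j, z k ^ 2 :=
    Finset.sum_congr rfl fun k hk => by rw [e3 k hk]
  rw [ineq2_phi hne z, ineq2_phi hne z', e1, e2, p1, p2, p3]
  set S := ((Finset.univ : Finset (Fin n)).erase i).erase j with hS
  obtain ⟨m, hm⟩ : ∃ m, m ∈ S := by
    apply Finset.card_pos.1
    have h1 : j ∈ (Finset.univ : Finset (Fin n)).erase i :=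
      Finset.mem_erase.2 ⟨hne.symm, Finset.mem_univ j⟩
    rw [hS, Finset.card_erase_of_mem h1, Finset.card_erase_of_mem (Finset.mem_univ i),
      Finset.card_univ, Fintype.card_fin]
    omega
  have hP : 0 < (∏ k ∈ S, z k) ^ (2 * n) := pow_pos (Finset.prod_pos fun k _ => hz k) _
  have hA1 : (z m)⁻¹ ^ 2 ≤ ∑ k ∈ S, (z k)⁻¹ ^ 2 :=
    Finset.single_le_sum (f := fun k => (z k)⁻¹ ^ 2) (fun k _ => by positivity) hm
  have hB1 : z m ^ 2 ≤ ∑ k ∈ S, z k ^ 2 :=
    Finset.single_le_sum (f := fun k => z k ^ 2) (fun k _ => by positivity) hm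
  have hm0 := hz m
  have hA : 0 < ∑ k ∈ S, (z k)⁻¹ ^ 2 := lt_of_lt_of_le (by positivity) hA1
  have hB : 0 < ∑ k ∈ S, z k ^ 2 := lt_of_lt_of_le (by positivity) hB1
  have hAB : 1 ≤ (∑ k ∈ S, (z k)⁻¹ ^ 2) * ∑ k ∈ S, z k ^ 2 := by
    calc (1 : ℝ) = (z m)⁻¹ ^ 2 * z m ^ 2 := by
          rw [← mul_pow, inv_mul_cancel₀ hm0.ne', one_pow]
      _ ≤ _ := mul_le_mul hA1 hB1 (by positivity) hA.le
  have h := two_var hn hA hB hAB (hz i) (hz j) hij
  exact mul_lt_mul_of_pos_left h hP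

end BM939
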