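import Pool.Agent.Lib.MP_939ffc_anD.Ineq2

/-!
# MP_939ffc_an: the inequality of the diagonal maps: the maximum
-/

namespace BM939

/-- `phi` as a polynomial. -/
noncomputable def phi' {n : ℕ} (z : Fin n → ℝ) : ℝ :=
  (∏ i, z i) ^ (2 * n - 4) * (∑ i, (∏ j ∈ Finset.univ.erase i, z j) ^ 2) ^ 2 * ∑ i, z i ^ 2

theorem phi_eq {n : ℕ} (hn : 3 ≤ n) {z : Fin n → ℝ} (hz : ∀ i, 0 < z i) : phi z = phi' z := by
  unfold phi phi'
  have h1 : ∀ i, ∏ j ∈ Finset.univ.erase i, z j = (∏ j, z j) * (z i)⁻¹ := by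
    intro i
    rw [← Finset.prod_erase_mul Finset.univ z (Finset.mem_univ i)]
    have := (hz i).ne'
    field_simp
  have h2 : ∑ i, (∏ j ∈ Finset.univ.erase i, z j) ^ 2 =
      (∏ j, z j) ^ 2 * ∑ i, (z i)⁻¹ ^ 2 := by
    rw [Finset.mul_sum]
    exact Finset.sum_congr rfl fun i _ => by rw [h1, mul_pow]
  rw [h2, mul_pow, ← pow_mul, ← mul_assoc, ← pow_add]
  congr 3
  omega

private theorem ineq3_key {n : ℕ} (hn : 3 ≤ n) {z : Fin n → ℝ} (hz : ∀ i, 0 < z i)
    (hs : ∑ i, z i = n)
    (hmax : ∀ w : Fin n → ℝ, (∀ i, 0 < w i) → ∑ i, w i = n → phi w ≤ phi z) :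
    ∀ i, z i = 1 := by
  have hall : ∀ i j, z i = z j := by
    intro i j
    by_contra hij
    have hne : i ≠ j := fun h => hij (by rw [h])
    have h1 := phi_lt hn hz hij
    refine absurd (hmax _ ?_ ?_) (not_le.2 h1)
    · intro k
      have := hz i
      have := hz j
      by_cases hkj : k = j
      · rw [hkj, Function.update_self]
        positivity
      · rw [Function.update_of_ne hkj]
        by_cases hki : k = i
        · rw [hki, Function.update_self]
          positivity
        · rw [Function.update_of_ne hki]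
          exact hz k
    · rw [← hs, Finset.sum_update_of_mem (Finset.mem_univ j),
        ← Finset.add_sum_erase Finset.univ z (Finset.mem_univ j)]
      have hi : i ∈ Finset.univ \ {j} := by simp [hne]
      have e1 : Finset.univ.erase j = Finset.univ \ {j} := by
        ext k; simp
      rw [e1, Finset.sum_update_of_mem hi, ← Finset.add_sum_erase _ z hi]
      have e2 : (Finset.univ \ {j}) \ {i} = (Finset.univ \ {j}).erase i := by
        ext k; simp [and_comm]
      rw [e2]
      ring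
  intro i
  have h2 : ∑ k, z k = n * z i := by
    rw [Finset.sum_congr rfl fun k _ => hall k i]
    simp
  have hn0 : (0 : ℝ) < n := by exact_mod_cast (by omega : 0 < n)
  rw [hs] at h2
  have h3 : (n : ℝ) * z i = n * 1 := by rw [mul_one, ← h2]
  exact mul_left_cancel₀ hn0.ne' h3

/-- On the simplex `z ≥ 0`, `∑ z = n`, the maximum of the continuous function `phi'` is `n ^ 3`, attained only at
`z = 1`. PROOF: the simplex is compact; at a maximum point `phi' z ≥ phi' 1 = n ^ 3 > 0`, so (as `2 n - 4 > 0`) all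
`z i > 0`; by `phi_lt` all `z i` are equal, so `z = 1`. -/
theorem phi_le {n : ℕ} (hn : 3 ≤ n) {z : Fin n → ℝ} (hz : ∀ i, 0 < z i) (hs : ∑ i, z i = n) :
    phi z ≤ (n : ℝ) ^ 3 ∧ (phi z = (n : ℝ) ^ 3 → ∀ i, z i = 1) := by
  have hn0 : (0 : ℝ) < n := by exact_mod_cast (by omega : 0 < n)
  set K : Set (Fin n → ℝ) := {w | (∀ i, 0 ≤ w i) ∧ ∑ i, w i = n} with hK
  have hcl : IsClosed K := by
    have e : K = (⋂ i, {w : Fin n → ℝ | 0 ≤ w i}) ∩ {w | ∑ i, w i = n} := by
      ext w
      simp [hK]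
    rw [e]
    refine IsClosed.inter (isClosed_iInter fun i => ?_) ?_
    · exact isClosed_le continuous_const (continuous_apply i)
    · exact isClosed_eq (continuous_finsetSum _ fun i _ => continuous_apply i) continuous_const
  have hsub : K ⊆ Set.Icc (fun _ => 0) (fun _ => (n : ℝ)) := by
    intro w hw
    refine ⟨fun i => hw.1 i, fun i => ?_⟩
    show w i ≤ n
    rw [← hw.2]
    exact Finset.single_le_sum (fun k _ => hw.1 k) (Finset.mem_univ i)
  have hcomp : IsCompact K := isCompact_Icc.of_isClosed_subset hcl hsub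
  have hone : (fun _ => 1 : Fin n → ℝ) ∈ K := by
    refine ⟨fun i => zero_le_one, ?_⟩
    simp
  have hcont : Continuous (phi' : (Fin n → ℝ) → ℝ) := by
    unfold phi'
    fun_prop
  obtain ⟨z0, hz0, hm⟩ := hcomp.exists_isMaxOn ⟨_, hone⟩ hcont.continuousOn
  have hphi1 : phi (fun _ => 1 : Fin n → ℝ) = (n : ℝ) ^ 3 := by
    unfold phi
    simp
    ring
  have h1 : (n : ℝ) ^ 3 ≤ phi' z0 := by
    have h2 := hm hone
    rw [← hphi1, phi_eq hn (fun _ => one_pos)]
    exact h2
  have hpos : ∀ i, 0 < z0 i := by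
    intro i
    rcases (hz0.1 i).lt_or_eq with h | h
    · exact h
    · exfalso
      have h2 : phi' z0 = 0 := by
        unfold phi'
        rw [Finset.prod_eq_zero (Finset.mem_univ i) h.symm, zero_pow (by omega), zero_mul, zero_mul]
      rw [h2] at h1
      have : (0 : ℝ) < (n : ℝ) ^ 3 := by positivity
      linarith
  have hz1 : ∀ i, z0 i = 1 := by
    refine ineq3_key hn hpos hz0.2 fun w hw hws => ?_
    rw [phi_eq hn hw, phi_eq hn hpos]
    exact hm ⟨fun i => (hw i).le, hws⟩
  have hz1' : z0 = fun _ => 1 := funext hz1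
  have hle : ∀ w : Fin n → ℝ, (∀ i, 0 < w i) → ∑ i, w i = n → phi w ≤ (n : ℝ) ^ 3 := by
    intro w hw hws
    rw [← hphi1, phi_eq hn hw, phi_eq hn (fun _ => one_pos), ← hz1']
    exact hm ⟨fun i => (hw i).le, hws⟩
  refine ⟨hle z hz hs, fun he => ineq3_key hn hz hs fun w hw hws => ?_⟩
  rw [he]
  exact hle w hw hws

end BM939
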