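import Pool.Agent.Lib.MP_939ffc_anC.Main
import Pool.Agent.Lib.MP_deb14e_anM.Sim

/-!
# MP_939ffc_an: invariance of the functional under isometries
-/

open MeasureTheory Set Metric Filter Topology
open scoped ENNReal NNReal Pointwise
open Pool.Agent.Lib.MP_deb14e_an Pool.Agent.MPdeb14eM

namespace BM939

private theorem iso_momentum {m : ℕ} (φ : E (m + 1) ≃ᵢ E (m + 1)) (Ω : Set (E (m + 1)))
    (x₀ : E (m + 1)) : momentum (φ '' Ω) (φ x₀) = momentum Ω x₀ := by
  have hf : frontier (φ '' Ω) = φ '' frontier Ω := (φ.toHomeomorph.image_frontier Ω).symm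
  unfold momentum
  rw [hf]
  have h : ∫ y in φ '' frontier Ω, ‖y - φ x₀‖ ^ 2 ∂(Measure.hausdorffMeasure (((m + 1 : ℕ) : ℝ) - 1)) =
      ∫ x in frontier Ω, ‖φ x - φ x₀‖ ^ 2 ∂(Measure.hausdorffMeasure (((m + 1 : ℕ) : ℝ) - 1)) :=
    (φ.measurePreserving_hausdorffMeasure (((m + 1 : ℕ) : ℝ) - 1)).setIntegral_image_emb
      φ.toHomeomorph.measurableEmbedding _ _
  have h2 : ∀ x, ‖φ x - φ x₀‖ = ‖x - x₀‖ := fun x => by
    rw [← dist_eq_norm, ← dist_eq_norm, φ.dist_eq]
  rw [h]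
  simp only [h2]

theorem calF_isometry {m : ℕ} (φ : E (m + 1) ≃ᵢ E (m + 1)) (Ω : Set (E (m + 1))) :
    calF (φ '' Ω) = calF Ω := by
  have hI : (⨅ x₀ : E (m + 1), momentum (φ '' Ω) x₀) = ⨅ x₀ : E (m + 1), momentum Ω x₀ := by
    rw [← φ.surjective.iInf_comp]
    exact iInf_congr fun x₀ => iso_momentum φ Ω x₀
  have hs : ∀ A : Set (E (m + 1)), φ '' A = sim φ.toRealLinearIsometryEquiv (φ 0) 1 '' A := by
    intro A
    congr 1
    ext1 x
    change φ x = φ 0 + (1 : ℝ) • φ.toRealLinearIsometryEquiv x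
    rw [one_smul, IsometryEquiv.toRealLinearIsometryEquiv_apply, add_sub_cancel]
  have hP : perimeter (m + 1) (φ '' Ω) = perimeter (m + 1) Ω := by
    rw [hs, perimeter_sim _ _ one_pos, one_pow, one_mul]
  have hV : (volume (φ '' Ω)).toReal = (volume Ω).toReal := by
    have h1 := Sim_restrict φ.toRealLinearIsometryEquiv (φ 0) one_pos Ω
    have h2 := congrArg (fun μ : Measure (E (m + 1)) => μ univ) h1
    simp only [Measure.restrict_apply_univ, Measure.smul_apply, MeasurableEquiv.map_apply,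
      preimage_univ, smul_eq_mul] at h2
    rw [hs, h2, ENNReal.toReal_mul, ENNReal.toReal_ofReal (by positivity), one_pow, one_mul]
  unfold calF
  rw [hI, hP, hV]

end BM939
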