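import Pool.Agent.Lib.MP_939ffc_anD.Defs
import Pool.Agent.Lib.MP_939ffc_anC.Main

open MeasureTheory Set Metric Filter Topology
open scoped ENNReal NNReal Pointwise
open Pool.Agent.Lib.MP_deb14e_an Pool.Agent.MPdeb14eM

namespace BM939

/-- PROOF: a ball `ball 0 r ⊆ K`; `‖x‖ ≥ r` on the frontier of `K` (the ball is an open subset of `K`, disjoint from the
frontier of the open set `K`), so the momentum is at least `r ^ 2` times the perimeter, which is positive
(`perimeter_pos`). -/
theorem momentum_zero_pos {m : ℕ} {K : Set (E (m + 1))} (hK : ConvexDomain K) (h0 : (0 : E (m + 1)) ∈ K) :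
    0 < momentum K 0 := by
  have hop : IsOpen K := hK.2.2.1
  obtain ⟨r, hr, hball⟩ := Metric.isOpen_iff.1 hop 0 h0
  have hrn : ∀ x ∈ frontier K, r ≤ ‖x‖ := by
    intro x hx
    by_contra hlt
    push Not at hlt
    have hxK : x ∈ K := hball (by simpa [Metric.mem_ball, dist_zero_right] using hlt)
    have hint : x ∈ interior K := by rwa [hop.interior_eq]
    exact hx.2 hint
  obtain ⟨R, hR, hRK⟩ := hK.2.1.exists_pos_norm_le
  have hRn : ∀ x ∈ frontier K, ‖x‖ ≤ R := by
    intro x hx
    have hxc : x ∈ closure K := frontier_subset_closure hx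
    have hsub : closure K ⊆ Metric.closedBall (0 : E (m + 1)) R := by
      apply closure_minimal _ Metric.isClosed_closedBall
      intro y hy
      simpa [Metric.mem_closedBall, dist_zero_right] using hRK y hy
    simpa [Metric.mem_closedBall, dist_zero_right] using hsub hxc
  have hmeas : MeasurableSet (frontier K) := isClosed_frontier.measurableSet
  have hpos := perimeter_pos hK
  rw [perimeter_eq] at hpos
  have hcpos : 0 < hausdorffConst (m : ℝ) := hausdorffConst_pos (Nat.cast_nonneg m)
  have hμpos : 0 < ((Measure.hausdorffMeasure (m : ℝ) : Measure (E (m + 1))) (frontier K)).toReal :=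
    (mul_pos_iff_of_pos_left hcpos).1 hpos
  have hμne : (Measure.hausdorffMeasure (m : ℝ) : Measure (E (m + 1))) (frontier K) ≠ 0 := by
    intro h
    rw [h] at hμpos
    simp at hμpos
  have hμlt := frontier_lt_top hK
  have hlow : ENNReal.ofReal (r ^ 2) * (Measure.hausdorffMeasure (m : ℝ) : Measure (E (m + 1))) (frontier K)
      ≤ bd 2 K := by
    unfold bd
    rw [← setLIntegral_const]
    apply setLIntegral_mono' hmeas
    intro x hx
    apply ENNReal.ofReal_le_ofReal
    exact pow_le_pow_left₀ hr.le (hrn x hx) 2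
  have hup : bd 2 K ≤ ENNReal.ofReal (R ^ 2) *
      (Measure.hausdorffMeasure (m : ℝ) : Measure (E (m + 1))) (frontier K) := by
    unfold bd
    rw [← setLIntegral_const]
    apply setLIntegral_mono' hmeas
    intro x hx
    apply ENNReal.ofReal_le_ofReal
    exact pow_le_pow_left₀ (norm_nonneg x) (hRn x hx) 2
  rw [Main_momentum_zero]
  apply mul_pos hcpos
  apply ENNReal.toReal_pos
  · have h1 : 0 < ENNReal.ofReal (r ^ 2) * (Measure.hausdorffMeasure (m : ℝ) : Measure (E (m + 1))) (frontier K) := by
      apply ENNReal.mul_pos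
      · exact (ENNReal.ofReal_pos.2 (by positivity)).ne'
      · exact hμne
    exact (lt_of_lt_of_le h1 hlow).ne'
  · exact (lt_of_le_of_lt hup (ENNReal.mul_lt_top ENNReal.ofReal_lt_top hμlt)).ne

end BM939
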