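import Pool.Agent.Lib.MP_939ffc_anD.Ineq
import Pool.Agent.Lib.MP_939ffc_anD.GenP
import Pool.Agent.Lib.MP_939ffc_anD.GenM
import Pool.Agent.Lib.MP_939ffc_anD.Cent
import Pool.Agent.Lib.MP_939ffc_anD.MomPos
import Pool.Agent.Lib.MP_939ffc_anC.Main3

/-!
# MP_939ffc_an: the comparison for diagonal images of symmetric bodies
-/

open MeasureTheory Set Metric Filter Topology
open scoped ENNReal NNReal Pointwise
open Pool.Agent.Lib.MP_deb14e_an Pool.Agent.MPdeb14eM

namespace BM939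

theorem main5_bd_lt {m p : ℕ} {K : Set (E (m + 1))} (hK : ConvexDomain K) : bd p K < ⊤ := by
  obtain ⟨R, hR0, hR⟩ := hK.2.1.closure.exists_pos_norm_le
  unfold bd
  refine (setLIntegral_mono (g := fun _ => ENNReal.ofReal (R ^ p)) measurable_const
    fun x hx => ENNReal.ofReal_le_ofReal
      (pow_le_pow_left₀ (norm_nonneg _) (hR x (frontier_subset_closure hx)) p)).trans_lt ?_
  rw [setLIntegral_const]
  exact ENNReal.mul_lt_top ENNReal.ofReal_lt_top (frontier_lt_top hK)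

/-- The arithmetic of the exponents. -/
theorem main5_arith {m : ℕ} (hm : 1 ≤ m) {V P M V' P' M' D q β : ℝ} (hV : 0 < V) (hP : 0 < P)
    (hM0 : 0 ≤ M') (hD : 0 < D) (hβ : 0 < β) (hV' : V' = D * V) (hP' : D * β * P ≤ P')
    (hM' : M' ≤ D * q * M) :
    V' ^ ((m + 1 - 2) * (m + 1 + 1)) / P' ^ ((m + 1) ^ 2 - 1) * M' ≤
      q / (D ^ (m + 1) * β ^ ((m + 1) ^ 2 - 1)) *
        (V ^ ((m + 1 - 2) * (m + 1 + 1)) / P ^ ((m + 1) ^ 2 - 1) * M) := by
  obtain ⟨k, rfl⟩ : ∃ k, m = k + 1 := ⟨m - 1, by omega⟩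
  have e1 : (k + 1 + 1 - 2) * (k + 1 + 1 + 1) = k * (k + 3) := by
    congr 1
  have e2 : (k + 1 + 1) ^ 2 - 1 = k * (k + 3) + (k + 3) := by
    have : (k + 1 + 1) ^ 2 = k * (k + 3) + (k + 3) + 1 := by ring
    omega
  rw [e1, e2]
  obtain ⟨N, hN⟩ : ∃ N, N = k * (k + 3) := ⟨_, rfl⟩
  rw [← hN, hV']
  have h1 : (D * V) ^ N / P' ^ (N + (k + 3)) * M' ≤
      (D * V) ^ N / (D * β * P) ^ (N + (k + 3)) * (D * q * M) := by
    refine mul_le_mul ?_ hM' hM0 (by positivity)
    exact div_le_div_of_nonneg_left (by positivity) (by positivity)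
      (pow_le_pow_left₀ (by positivity) hP' _)
  refine h1.trans (le_of_eq ?_)
  rw [mul_pow D V, mul_pow (D * β) P, mul_pow D β, pow_add D N (k + 3)]
  have e3 : D ^ (k + 3) = D ^ (k + 1 + 1) * D := by ring
  rw [e3]
  field_simp

theorem main5_aux {m : ℕ} (hm : 2 ≤ m) {K : Set (E (m + 1))} (hK : ConvexDomain K)
    (hs : SignedPermInvariant K) {α : Fin (m + 1) → ℝ} (hα : ∀ i, 0 < α i) :
    ∃ c : ℝ, 0 < c ∧ c ≤ calF K ∧ calF (dil α K) ≤
      ma α * mq α / ((∏ i, α i) ^ (m + 1) * mb α ^ ((m + 1) ^ 2 - 1)) * c := by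
  have hh : 0 < hausdorffConst (m : ℝ) := hausdorffConst_pos (Nat.cast_nonneg m)
  have hKfin : volume K < ⊤ := hK.2.1.measure_lt_top
  have hV : 0 < (volume K).toReal :=
    ENNReal.toReal_pos (hK.2.2.1.measure_pos _ hK.1).ne' hKfin.ne
  have hP : 0 < perimeter (m + 1) K := perimeter_pos hK
  have h0 := zero_mem_of_sym hK hs
  have hM : 0 < momentum K 0 := momentum_zero_pos hK h0
  have hD : 0 < ∏ i, α i := Finset.prod_pos fun i _ => hα i
  have hβ : 0 < mb α := by
    unfold mb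
    have : 0 < ∑ i, (α i)⁻¹ := Finset.sum_pos (fun i _ => inv_pos.2 (hα i)) Finset.univ_nonempty
    positivity
  have hq : 0 ≤ ma α * mq α := by
    unfold ma mq
    have : 0 ≤ ∑ i, α i ^ 2 := Finset.sum_nonneg fun i _ => sq_nonneg _
    positivity
  have hdom := convexDomain_dil hα hK
  have hV' : (volume (dil α K)).toReal = (∏ i, α i) * (volume K).toReal := by
    rw [volume_dil hα hK.2.2.1.measurableSet, ENNReal.toReal_mul, ENNReal.toReal_ofReal hD.le]
  have hP' : (∏ i, α i) * mb α * perimeter (m + 1) K ≤ perimeter (m + 1) (dil α K) := by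
    have h1 := genP hK hs hα
    rw [Main_bd_zero, Main_bd_zero] at h1
    have h2 := ENNReal.toReal_mono (frontier_lt_top hdom).ne h1
    rw [ENNReal.toReal_mul, ENNReal.toReal_ofReal (by positivity)] at h2
    rw [perimeter_eq, perimeter_eq]
    calc (∏ i, α i) * mb α * (hausdorffConst m * (Measure.hausdorffMeasure (m : ℝ) (frontier K)).toReal)
        = hausdorffConst m * ((∏ i, α i) * mb α *
            (Measure.hausdorffMeasure (m : ℝ) (frontier K)).toReal) := by ring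
      _ ≤ _ := mul_le_mul_of_nonneg_left h2 hh.le
  have hM' : momentum (dil α K) 0 ≤ (∏ i, α i) * (ma α * mq α) * momentum K 0 := by
    have h1 := genM hK hs hα
    have h2 := ENNReal.toReal_mono
      (ENNReal.mul_lt_top ENNReal.ofReal_lt_top (main5_bd_lt hK)).ne h1
    rw [ENNReal.toReal_mul, ENNReal.toReal_ofReal (by positivity)] at h2
    rw [Main_momentum_zero, Main_momentum_zero]
    calc hausdorffConst m * (bd 2 (dil α K)).toReal
        ≤ hausdorffConst m * ((∏ i, α i) * (ma α * mq α) * (bd 2 K).toReal) :=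
          mul_le_mul_of_nonneg_left h2 hh.le
      _ = _ := by ring
  refine ⟨(volume K).toReal ^ ((m + 1 - 2) * (m + 1 + 1)) /
    perimeter (m + 1) K ^ ((m + 1) ^ 2 - 1) * momentum K 0, by positivity, ?_, ?_⟩
  · unfold calF
    refine mul_le_mul_of_nonneg_left ?_ (by positivity)
    exact le_ciInf fun x₀ => momentum_zero_le hK (fun x hx => neg_mem_of_sym hs hx) x₀
  · have h1 : ⨅ x₀ : E (m + 1), momentum (dil α K) x₀ ≤ momentum (dil α K) 0 :=
      ciInf_le ⟨0, by rintro _ ⟨x, rfl⟩; exact Main_momentum_nonneg _ x⟩ 0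
    unfold calF
    have hP'' : 0 < perimeter (m + 1) (dil α K) := perimeter_pos hdom
    calc (volume (dil α K)).toReal ^ ((m + 1 - 2) * (m + 1 + 1)) /
          perimeter (m + 1) (dil α K) ^ ((m + 1) ^ 2 - 1) * ⨅ x₀ : E (m + 1), momentum (dil α K) x₀
        ≤ (volume (dil α K)).toReal ^ ((m + 1 - 2) * (m + 1 + 1)) /
          perimeter (m + 1) (dil α K) ^ ((m + 1) ^ 2 - 1) * momentum (dil α K) 0 :=
          mul_le_mul_of_nonneg_left h1 (by positivity)
      _ ≤ _ := main5_arith (by omega) hV hP (Main_momentum_nonneg _ 0) hD hβ hV' hP' hM'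

theorem main5_le {m : ℕ} (hm : 2 ≤ m) {K : Set (E (m + 1))} (hK : ConvexDomain K)
    (hs : SignedPermInvariant K) {α : Fin (m + 1) → ℝ} (hα : ∀ i, 0 < α i) :
    calF (dil α K) ≤ calF K := by
  obtain ⟨c, hc, hcK, hle⟩ := main5_aux hm hK hs hα
  have hD : 0 < ∏ i, α i := Finset.prod_pos fun i _ => hα i
  have hβ : 0 < mb α := by
    unfold mb
    have : 0 < ∑ i, (α i)⁻¹ := Finset.sum_pos (fun i _ => inv_pos.2 (hα i)) Finset.univ_nonempty
    positivity
  have h1 := star_le (n := m + 1) (by omega) hα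
  have h2 : ma α * mq α / ((∏ i, α i) ^ (m + 1) * mb α ^ ((m + 1) ^ 2 - 1)) ≤ 1 := by
    rw [div_le_one (by positivity)]
    exact h1
  exact hle.trans ((mul_le_of_le_one_left hc.le h2).trans hcK)

theorem main5_lt {m : ℕ} (hm : 2 ≤ m) {K : Set (E (m + 1))} (hK : ConvexDomain K)
    (hs : SignedPermInvariant K) {α : Fin (m + 1) → ℝ} (hα : ∀ i, 0 < α i)
    (hne : ¬ ∀ i j, α i = α j) : calF (dil α K) < calF K := by
  obtain ⟨c, hc, hcK, hle⟩ := main5_aux hm hK hs hα
  have hD : 0 < ∏ i, α i := Finset.prod_pos fun i _ => hα i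
  have hβ : 0 < mb α := by
    unfold mb
    have : 0 < ∑ i, (α i)⁻¹ := Finset.sum_pos (fun i _ => inv_pos.2 (hα i)) Finset.univ_nonempty
    positivity
  have h1 := star_lt (n := m + 1) (by omega) hα hne
  have h2 : ma α * mq α / ((∏ i, α i) ^ (m + 1) * mb α ^ ((m + 1) ^ 2 - 1)) < 1 := by
    rw [div_lt_one (by positivity)]
    exact h1
  exact (hle.trans_lt (mul_lt_of_lt_one_left hc h2)).trans_le hcK

theorem main5_iff {m : ℕ} (hm : 2 ≤ m) {K : Set (E (m + 1))} (hK : ConvexDomain K)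
    (hs : SignedPermInvariant K) {α : Fin (m + 1) → ℝ} (hα : ∀ i, 0 < α i) :
    calF (dil α K) = calF K ↔ ∀ i j, α i = α j := by
  constructor
  · intro h
    by_contra hne
    exact (main5_lt hm hK hs hα hne).ne h
  · intro h
    have e : α = fun _ => α 0 := funext fun i => h i 0
    rw [e]
    exact calF_dil_const (by omega) (hα 0) K

end BM939
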